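import Pool.Agent.Q85.Rig.Fil

/-!
# The pair correlation of the zeros of zeta exists if it exists at sparse scales

Assume only that almost all zeros of zeta are on the critical line (the number of the others with
ordinate in `(0, T]` is `o(T log T)`, along the heights `T` under consideration).  Let `N*(T, a)` be as in the problem, and `ℓ₁, ℓ₂ > 0` with
`ℓ₁ / ℓ₂` irrational.  Suppose that for `i = 1, 2` there are `c, κ > 0` and arbitrarily large `R`
such that for every `a` in `[R, (1 + c) R]` the oscillation of `(N*(T, a + ℓᵢ) - N*(T, a)) /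
(T log T)` as `T → ∞` is at most `2 exp (-κ R)` (for example: such that the limit exists).  Then a
limiting pair correlation exists at all distances: there is a locally finite measure `μ` such that

`(N*(T, β) - N*(T, α)) / (T log T) → μ (α, β]`

for all `0 < α < β` with `μ {α} = μ {β} = 0` (all but countably many).  No value of the limit is
prescribed; the scales `R` may be as sparse as one likes, and nothing is assumed between them. The
same along every filter finer than `T → ∞`.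

Idea of the proof.  Two limit measures (along two ultrafilters) agree on the band-limited functions
of small band, and their windows of lengths `ℓ₁, ℓ₂` are exponentially close in the blocks
`[R, (1 + c) R]`.  By the gap theorem `Q85.Rig.gap_zero` (Beurling's gap theorem for exponentially
small blocks) they have the same windows of these two lengths, hence they are equal.
-/

set_option autoImplicit false

open Filter Topology

namespace Pool.Agent.Results.MP_f58427_nt.ExistenceAtSparseScales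

/-- the nontrivial zeros of `ζ` -/
def Zeros : Set ℂ := {s : ℂ | riemannZeta s = 0 ∧ 0 < s.re ∧ s.re < 1}

/-- the multiplicity of `s` as a zero of `ζ` -/
noncomputable def mult (s : ℂ) : ℕ := analyticOrderNatAt riemannZeta s

/-- `N*(T, a)` as in the problem: the number of ordered pairs `(γ, γ')` of ordinates of nontrivial
zeros, counted with multiplicity, with `0 < γ ≤ T` and `0 < γ - γ' ≤ 2πa / log T` -/
noncomputable def Nstar (T a : ℝ) : ℕ :=
  ∑ᶠ p ∈ {p : ℂ × ℂ | p.1 ∈ Zeros ∧ p.2 ∈ Zeros ∧ 0 < p.1.im ∧ p.1.im ≤ T ∧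
    0 < p.1.im - p.2.im ∧ p.1.im - p.2.im ≤ 2 * Real.pi * a / Real.log T}, mult p.1 * mult p.2

/-- the number of zeros off the critical line with ordinate in `(0, T]`, with multiplicity -/
noncomputable def Noff (T : ℝ) : ℕ :=
  ∑ᶠ s ∈ {s : ℂ | s ∈ Zeros ∧ 0 < s.im ∧ s.im ≤ T ∧ s.re ≠ 1 / 2}, mult s

/-- Almost all zeros are on the critical line, along the filter `l`. -/
def AlmostAllOnLine (l : Filter ℝ) : Prop :=
  Tendsto (fun T => (Noff T : ℝ) / (T * Real.log T)) l (𝓝 0)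

/-- For arbitrarily large `R` and every `a` in the block `[R, (1 + c) R]`, the normalised number of
pairs in the window `(a, a + ℓ]` is eventually within `exp (-κ R) + ε` of a fixed number `D`. -/
def RegularScales (l : Filter ℝ) (ℓ : ℝ) : Prop := ∃ c κ : ℝ, 0 < c ∧ 0 < κ ∧
  ∀ R₀ : ℝ, ∃ R : ℝ, R₀ ≤ R ∧ ∀ a : ℝ, R ≤ a → a ≤ (1 + c) * R → ∃ D : ℝ, ∀ ε : ℝ, 0 < ε →
    ∀ᶠ T in l, |((Nstar T (a + ℓ) : ℝ) - Nstar T a) / (T * Real.log T) - D| ≤
      Real.exp (-(κ * R)) + ε

open Pool.Agent.Y749.Rig Pool.Agent.Q85.Rig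

/-- the ordinates are bounded away from zero -/
lemma im_lower : ∃ δ : ℝ, 0 < δ ∧ ∀ s ∈ Zeros, 0 < s.im → δ ≤ s.im := by
  classical
  rcases ((ZZ 1).filter fun s => 0 < s.im).eq_empty_or_nonempty with h | h
  · refine ⟨1, one_pos, fun s hs h0 => ?_⟩
    by_contra hcon
    push Not at hcon
    have : s ∈ (ZZ 1).filter fun s => 0 < s.im := by
      rw [Finset.mem_filter, mem_ZZ]
      exact ⟨⟨hs.1, hs.2.1, hs.2.2, h0.le, hcon.le⟩, h0⟩
    rw [h] at this
    exact absurd this (Finset.notMem_empty _)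
  · obtain ⟨s₀, hs₀, hmin⟩ := Finset.exists_min_image _ (fun s : ℂ => s.im) h
    rw [Finset.mem_filter] at hs₀
    refine ⟨min 1 s₀.im, lt_min one_pos hs₀.2, fun s hs h0 => ?_⟩
    rcases le_or_gt s.im 1 with h1 | h1
    · refine (min_le_right _ _).trans (hmin s ?_)
      rw [Finset.mem_filter, mem_ZZ]
      exact ⟨⟨hs.1, hs.2.1, hs.2.2, h0.le, h1⟩, h0⟩
    · exact (min_le_left _ _).trans h1.le

lemma Nstar_eq (a : ℝ) : ∀ᶠ T in atTop,
    2 * Real.pi * ((Nstar T a : ℝ) / (T * Real.log T)) = NS T a := by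
  classical
  have hpi := Real.pi_pos
  obtain ⟨δ, hδ, hlow⟩ := im_lower
  have h1 : ∀ᶠ T : ℝ in atTop, 2 * Real.pi * |a| / δ + 1 ≤ Real.log T :=
    Real.tendsto_log_atTop.eventually_ge_atTop _
  filter_upwards [h1, eventually_ge_atTop 10] with T hT hT10
  have hL : 0 < Real.log T := by
    have : 0 ≤ 2 * Real.pi * |a| / δ := by positivity
    linarith
  have hT0 : 0 < T := by linarith
  have hsmall : 2 * Real.pi * a / Real.log T < δ := by
    rw [div_lt_iff₀ hL]
    have h2 : 2 * Real.pi * |a| / δ < Real.log T := by linarith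
    rw [div_lt_iff₀ hδ] at h2
    have h3 : 2 * Real.pi * a ≤ 2 * Real.pi * |a| := by
      have := le_abs_self a
      nlinarith
    linarith
  have hset : {p : ℂ × ℂ | p.1 ∈ Zeros ∧ p.2 ∈ Zeros ∧ 0 < p.1.im ∧ p.1.im ≤ T ∧
      0 < p.1.im - p.2.im ∧ p.1.im - p.2.im ≤ 2 * Real.pi * a / Real.log T} =
      (((ZZ T ×ˢ ZZ T).filter fun p : ℂ × ℂ =>
        (p.1.im - p.2.im) * Real.log T / (2 * Real.pi) ∈ Set.Ioc 0 a : Finset (ℂ × ℂ)) :
          Set (ℂ × ℂ)) := by
    ext p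
    rw [Finset.coe_filter]
    simp only [Set.mem_ofPred_eq, Finset.mem_product, mem_ZZ, Set.mem_Ioc]
    have e1 : 0 < p.1.im - p.2.im ↔ 0 < (p.1.im - p.2.im) * Real.log T / (2 * Real.pi) := by
      constructor
      · intro h; positivity
      · intro h
        by_contra hcon
        push Not at hcon
        have : (p.1.im - p.2.im) * Real.log T / (2 * Real.pi) ≤ 0 :=
          div_nonpos_of_nonpos_of_nonneg (mul_nonpos_of_nonpos_of_nonneg hcon hL.le) (by positivity)
        linarith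
    have e2 : p.1.im - p.2.im ≤ 2 * Real.pi * a / Real.log T ↔
        (p.1.im - p.2.im) * Real.log T / (2 * Real.pi) ≤ a := by
      rw [le_div_iff₀ hL, div_le_iff₀ (by positivity), mul_comm a]
    constructor
    · rintro ⟨h1, h2, h3, h4, h5, h6⟩
      have h7 : 0 ≤ p.2.im := by
        by_contra hcon
        push Not at hcon
        have := hlow p.1 h1 h3
        linarith
      exact ⟨⟨⟨h1.1, h1.2.1, h1.2.2, h3.le, h4⟩, ⟨h2.1, h2.2.1, h2.2.2, h7, by linarith⟩⟩,
        e1.1 h5, e2.1 h6⟩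
    · rintro ⟨⟨⟨a1, a2, a3, a4, a5⟩, ⟨b1, b2, b3, b4, b5⟩⟩, c1, c2⟩
      have c3 := e1.2 c1
      exact ⟨⟨a1, a2, a3⟩, ⟨b1, b2, b3⟩, by linarith, a5, c3, e2.2 c2⟩
  have hN : (Nstar T a : ℝ) = RR ((Set.Ioc 0 a).indicator fun _ => 1) (ZZ T) (ZZ T)
      (Real.log T) := by
    unfold Nstar RR
    rw [hset, finsum_mem_coe_finset, ← Finset.sum_product']
    push_cast
    rw [Finset.sum_filter]
    refine Finset.sum_congr rfl fun p _ => ?_
    by_cases h : (p.1.im - p.2.im) * Real.log T / (2 * Real.pi) ∈ Set.Ioc 0 a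
    · rw [if_pos h, Set.indicator_of_mem h, mul_one]
      rfl
    · rw [if_neg h, Set.indicator_of_notMem h, mul_zero]
  unfold NS
  rw [Mp_real hT10 measurableSet_Ioc, hN]
  unfold nT
  field_simp

lemma Noff_eq {T : ℝ} (hT : 0 ≤ T) :
    NF T = (Noff T : ℝ) + ∑ s ∈ (ZZ 0).filter (fun s => s.re ≠ 1 / 2), mm s := by
  classical
  have hset : {s : ℂ | s ∈ Zeros ∧ 0 < s.im ∧ s.im ≤ T ∧ s.re ≠ 1 / 2} =
      (((ZZ T).filter fun s : ℂ => s.re ≠ 1 / 2 ∧ 0 < s.im : Finset ℂ) : Set ℂ) := by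
    ext s
    rw [Finset.coe_filter]
    simp only [Set.mem_ofPred_eq, mem_ZZ]
    constructor
    · rintro ⟨h1, h2, h3, h4⟩
      exact ⟨⟨h1.1, h1.2.1, h1.2.2, h2.le, h3⟩, h4, h2⟩
    · rintro ⟨⟨a1, a2, a3, a4, a5⟩, c1, c2⟩
      exact ⟨⟨a1, a2, a3⟩, c2, a5, c1⟩
  have hN : (Noff T : ℝ) = ∑ s ∈ (ZZ T).filter (fun s : ℂ => s.re ≠ 1 / 2 ∧ 0 < s.im), mm s := by
    unfold Noff
    rw [hset, finsum_mem_coe_finset]
    push_cast
    rfl
  have hK : (ZZ 0).filter (fun s => s.re ≠ 1 / 2) =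
      (ZZ T).filter (fun s : ℂ => s.re ≠ 1 / 2 ∧ ¬ 0 < s.im) := by
    ext s
    rw [Finset.mem_filter, Finset.mem_filter, mem_ZZ, mem_ZZ]
    constructor
    · rintro ⟨⟨a1, a2, a3, a4, a5⟩, c1⟩
      exact ⟨⟨a1, a2, a3, a4, by linarith⟩, c1, by linarith⟩
    · rintro ⟨⟨a1, a2, a3, a4, a5⟩, c1, c2⟩
      exact ⟨⟨a1, a2, a3, a4, by linarith⟩, c1⟩
  unfold NF
  rw [hN, hK, ← Finset.filter_filter, ← Finset.filter_filter, Finset.sum_filter_add_sum_filter_not]

lemma TlogT : Tendsto (fun T : ℝ => T * Real.log T) atTop atTop :=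
  tendsto_id.atTop_mul_atTop₀ Real.tendsto_log_atTop

/-- the windows of `N*` -/
lemma Nstar_win {a b : ℝ} (ha : 0 ≤ a) (hab : a ≤ b) : ∀ᶠ T in atTop,
    2 * Real.pi * (((Nstar T b : ℝ) - Nstar T a) / (T * Real.log T)) =
      (Mp T).real (Set.Ioc a b) := by
  filter_upwards [Nstar_eq a, Nstar_eq b] with T h1 h2
  have hfin := Mp_fin T
  have h3 : NS T b = NS T a + (Mp T).real (Set.Ioc a b) := by
    unfold NS
    rw [← Set.Ioc_union_Ioc_eq_Ioc ha hab, MeasureTheory.measureReal_union _ measurableSet_Ioc]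
    rw [Set.disjoint_left]
    intro x hx hx'
    exact absurd hx.2 (not_le.2 hx'.1)
  rw [sub_div, mul_sub, h1, h2, h3]
  ring

/-- **Existence of the pair correlation.** -/
theorem result (l : Filter ℝ) (hl : l ≤ atTop) (hoff : AlmostAllOnLine l) (ℓ₁ ℓ₂ : ℝ)
    (h₁ : 0 < ℓ₁) (h₂ : 0 < ℓ₂) (hirr : Irrational (ℓ₁ / ℓ₂)) (hs₁ : RegularScales l ℓ₁)
    (hs₂ : RegularScales l ℓ₂) :
    ∃ μ : MeasureTheory.Measure ℝ, (∀ a b : ℝ, μ (Set.Icc a b) < ⊤) ∧
      ∀ α β : ℝ, 0 < α → α < β → μ {α} = 0 → μ {β} = 0 →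
        Tendsto (fun T => ((Nstar T β : ℝ) - Nstar T α) / (T * Real.log T)) l
          (𝓝 (μ.real (Set.Ioc α β))) := by
  have hpi := Real.pi_pos
  have h2pi : 0 < 2 * Real.pi := by positivity
  have hNF : ∀ η : ℝ, 0 < η → ∀ᶠ T : ℝ in l, NF T ≤ η * (T * Real.log T) := by
    intro η hη
    obtain ⟨K, hK⟩ : ∃ K : ℝ, K = ∑ s ∈ (ZZ 0).filter (fun s => s.re ≠ 1 / 2), mm s := ⟨_, rfl⟩
    filter_upwards [hoff.eventually (eventually_lt_nhds (show 0 < η / 2 by positivity)),
      hl (eventually_ge_atTop 10), hl (TlogT.eventually_ge_atTop (K * (2 / η)))]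
      with T hT hT10 hT2
    have h3 : 0 < T * Real.log T := by
      have := Real.log_pos (show (1 : ℝ) < T by linarith)
      have : 0 < T := by linarith
      positivity
    rw [div_lt_iff₀ h3] at hT
    rw [Noff_eq (by linarith), ← hK]
    have h4 : K ≤ η / 2 * (T * Real.log T) := by
      have := mul_le_mul_of_nonneg_left hT2 (show 0 ≤ η / 2 by positivity)
      rwa [show η / 2 * (K * (2 / η)) = K by field_simp] at this
    linarith
  have key : ∀ ℓ : ℝ, 0 < ℓ → RegularScales l ℓ → ∃ κ' c : ℝ, 0 < κ' ∧ 0 < c ∧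
      ∃ᶠ R : ℝ in atTop, ∀ α : ℝ, R ≤ α → α ≤ (1 + c) * R → ∃ D : ℝ, ∀ ε : ℝ, 0 < ε →
        ∀ᶠ T in l, |(Mp T).real (Set.Ioc α (α + ℓ)) - D| ≤ Real.exp (-(κ' * R)) + ε := by
    rintro ℓ hℓ ⟨c, κ, hc, hκ, h⟩
    refine ⟨κ / 2, c, by positivity, hc, ?_⟩
    rw [frequently_atTop]
    intro R₀
    obtain ⟨R, hR, h2⟩ := h (max (max R₀ 1) (2 * (2 * Real.pi) / κ))
    have hR1 : 1 ≤ R := (le_max_right _ _).trans ((le_max_left _ _).trans hR)
    have hR0 : R₀ ≤ R := (le_max_left _ _).trans ((le_max_left _ _).trans hR)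
    have hR2 : 2 * (2 * Real.pi) / κ ≤ R := (le_max_right _ _).trans hR
    refine ⟨R, hR0, fun α hα hα2 => ?_⟩
    obtain ⟨D, hD⟩ := h2 α hα hα2
    refine ⟨2 * Real.pi * D, fun ε hε => ?_⟩
    filter_upwards [hD (ε / (2 * Real.pi)) (by positivity),
      hl (Nstar_win (show 0 ≤ α by linarith) (show α ≤ α + ℓ by linarith))] with T hT hT2
    rw [← hT2, ← mul_sub, abs_mul, abs_of_pos h2pi]
    have h5 : 2 * Real.pi * Real.exp (-(κ * R)) ≤ Real.exp (-(κ / 2 * R)) := by
      have g1 : 2 * Real.pi ≤ Real.exp (κ / 2 * R) := by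
        have g2 : 2 * Real.pi ≤ κ / 2 * R := by
          rw [div_le_iff₀ hκ] at hR2
          linarith
        have := Real.add_one_le_exp (κ / 2 * R)
        linarith
      calc 2 * Real.pi * Real.exp (-(κ * R)) ≤ Real.exp (κ / 2 * R) * Real.exp (-(κ * R)) :=
            mul_le_mul_of_nonneg_right g1 (Real.exp_pos _).le
        _ = Real.exp (-(κ / 2 * R)) := by rw [← Real.exp_add]; congr 1; ring
    calc 2 * Real.pi * |((Nstar T (α + ℓ) : ℝ) - Nstar T α) / (T * Real.log T) - D|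
        ≤ 2 * Real.pi * (Real.exp (-(κ * R)) + ε / (2 * Real.pi)) :=
          mul_le_mul_of_nonneg_left hT h2pi.le
      _ = 2 * Real.pi * Real.exp (-(κ * R)) + ε := by
          rw [mul_add, mul_div_cancel₀ _ h2pi.ne']
      _ ≤ _ := by linarith
  obtain ⟨μ, C, hμ, hlim⟩ := zeta_existsF hl hNF h₁ h₂ hirr (by
    rintro ℓ (rfl | rfl)
    · exact key _ h₁ hs₁
    · exact key _ h₂ hs₂)
  have hsc : ∀ S : Set ℝ, (ENNReal.ofReal (1 / (2 * Real.pi)) • μ) S =
      ENNReal.ofReal (1 / (2 * Real.pi)) * μ S := fun S => by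
    rw [MeasureTheory.Measure.smul_apply, smul_eq_mul]
  have hne : ENNReal.ofReal (1 / (2 * Real.pi)) ≠ 0 := by
    rw [Ne, ENNReal.ofReal_eq_zero, not_le]
    positivity
  refine ⟨ENNReal.ofReal (1 / (2 * Real.pi)) • μ, fun a b => ?_, fun α β hα hαβ h3 h4 => ?_⟩
  · rw [hsc]
    exact ENNReal.mul_lt_top ENNReal.ofReal_lt_top (hμ.lt_top a b)
  · rw [hsc] at h3 h4
    have h5 := hlim α β hαβ ((mul_eq_zero.1 h3).resolve_left hne)
      ((mul_eq_zero.1 h4).resolve_left hne)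
    have h6 := h5.const_mul (1 / (2 * Real.pi))
    have h7 : (ENNReal.ofReal (1 / (2 * Real.pi)) • μ).real (Set.Ioc α β) =
        1 / (2 * Real.pi) * μ.real (Set.Ioc α β) := by
      unfold MeasureTheory.Measure.real
      rw [hsc, ENNReal.toReal_mul, ENNReal.toReal_ofReal (by positivity)]
    rw [h7]
    refine h6.congr' ?_
    filter_upwards [hl (Nstar_win hα.le hαβ.le)] with T hT
    rw [← hT, ← mul_assoc, one_div_mul_cancel h2pi.ne', one_mul]

end Pool.Agent.Results.MP_f58427_nt.ExistenceAtSparseScales
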