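import Pool.Agent.Q85.Rig.Dual3

/-!
# The pair correlation conjecture in terms of Montgomery's function far out and short distances

Unconditional.  Let `F (α, T)` be Montgomery's function.  Under RH Montgomery determined `F` for
`|α| < 1`, and it is known that the pair correlation conjecture is equivalent to the convergence of
all means of `F` over the intervals `[a, b]`, `b > a ≥ 1`, to `b - a`.  Here it is shown without RH
that the pair correlation conjecture, `N*(T, a) = (g (a) + o (1)) T log T` for every `a > 0`, holds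
if and only if

* almost all zeros of zeta are on the critical line (the number of the others with ordinate in
  `(0, T]` is `o (T log T)`),
* there are one-sided estimates for distant means of two incommensurable lengths: for `ℓ = ℓ₁, ℓ₂`
  with `ℓ₁ / ℓ₂` irrational there are `C, c, a₀ > 0` with
  `limsup_T ∫_a^{a+ℓ} F (α, T) dα ≤ ℓ + C exp (-c a)` for all `a ≥ a₀`, and
* the pair correlation is as conjectured at short distances: for all `0 < a < b < ε₀` (with any
  given `ε₀ > 0`) `(N*(T, b) - N*(T, a)) / (T log T) → g (b) - g (a)`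

(nothing about `F` for `1 ≤ α < a₀`, no lower bounds for `F`, nothing about the pairs of zeros at
distances `o (1 / log T)`, nothing about the pairs at normalised distances `≥ ε₀`).  In this case
the number of ordered pairs of zeros with equal ordinate in `(0, T]` is `~ (T / 2π) log T`.  The
same along every filter `l` finer than `T → ∞`.

Idea of the proof.  Let `Φ` be a limit of the measures `F (α, T) dα` and `μ` a limit of the pair
correlation measures; `μ` is the Fourier transform of `Φ`.  With `D = μ {0} ≥ 1` the measure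
`δ₀ + (min (|α|, 1) + D - 1) dα` has the same transform on `(-ε₀, ε₀)` and its distant windows are
at least as large; the one-sided rigidity theorem `Y749.Rig.rig3` shows that the two measures are
equal, Montgomery's theorem near `α = 0` gives `D = 1`.  In the other direction, the conjecture and
the unconditional number variance of Selberg and Fujii imply that almost all zeros are on the line.
-/

set_option autoImplicit false

open Filter Topology

namespace Pool.Agent.Results.MP_f58427_nt.FarMeansOfF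

/-- the nontrivial zeros of `ζ` -/
def Zeros : Set ℂ := {s : ℂ | riemannZeta s = 0 ∧ 0 < s.re ∧ s.re < 1}

/-- the multiplicity of `s` as a zero of `ζ` -/
noncomputable def mult (s : ℂ) : ℕ := analyticOrderNatAt riemannZeta s

/-- `N*(T, a)` as in the problem: the number of ordered pairs `(γ, γ')` of ordinates of nontrivial
zeros, counted with multiplicity, with `0 < γ ≤ T` and `0 < γ - γ' ≤ 2πa / log T` -/
noncomputable def Nstar (T a : ℝ) : ℕ :=
  ∑ᶠ p ∈ {p : ℂ × ℂ | p.1 ∈ Zeros ∧ p.2 ∈ Zeros ∧ 0 < p.1.im ∧ p.1.im ≤ T ∧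
    0 < p.1.im - p.2.im ∧ p.1.im - p.2.im ≤ 2 * Real.pi * a / Real.log T}, mult p.1 * mult p.2

/-- the number of ordered pairs of zeros with equal ordinate in `(0, T]`, counted with multiplicity
(`∑ m²` over the ordinates, where `m` is the multiplicity of the ordinate) -/
noncomputable def Nequal (T : ℝ) : ℕ :=
  ∑ᶠ p ∈ {p : ℂ × ℂ | p.1 ∈ Zeros ∧ p.2 ∈ Zeros ∧ 0 < p.1.im ∧ p.1.im ≤ T ∧ p.1.im = p.2.im},
    mult p.1 * mult p.2

/-- the number of zeros off the critical line with ordinate in `(0, T]`, with multiplicity -/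
noncomputable def Noff (T : ℝ) : ℕ :=
  ∑ᶠ s ∈ {s : ℂ | s ∈ Zeros ∧ 0 < s.im ∧ s.im ≤ T ∧ s.re ≠ 1 / 2}, mult s

/-- the conjectured value -/
noncomputable def g (a : ℝ) : ℝ :=
  1 / (2 * Real.pi) * ∫ u in (0 : ℝ)..a, (1 - (Real.sin (Real.pi * u) / (Real.pi * u)) ^ 2)

/-- Almost all zeros are on the critical line, along the filter `l`. -/
def AlmostAllOnLine (l : Filter ℝ) : Prop :=
  Tendsto (fun T => (Noff T : ℝ) / (T * Real.log T)) l (𝓝 0)

/-- The number of pairs of equal ordinates is `~ (T / 2π) log T`. -/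
def AlmostAllDistinct (l : Filter ℝ) : Prop :=
  Tendsto (fun T => (Nequal T : ℝ) / (T * Real.log T)) l (𝓝 (1 / (2 * Real.pi)))

/-- The asymptotic formula of Q1, along the filter `l` -/
def Conjecture (l : Filter ℝ) : Prop :=
  ∀ a : ℝ, 0 < a → Tendsto (fun T => (Nstar T a : ℝ) / (T * Real.log T)) l (𝓝 (g a))

/-- Montgomery's function `F (α, T) = (T log T / 2π)⁻¹ ∑ T ^ (i α (γ - γ')) w (γ - γ')`, where
`w (u) = 4 / (4 + u²)` and `γ, γ'` run over the ordinates in `(0, T]`, with multiplicity (the sum is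
real, by symmetry, so that the powers are replaced by cosines) -/
noncomputable def F (T α : ℝ) : ℝ :=
  (∑ᶠ p ∈ {p : ℂ × ℂ | p.1 ∈ Zeros ∧ p.2 ∈ Zeros ∧ 0 < p.1.im ∧ p.1.im ≤ T ∧ 0 < p.2.im ∧
    p.2.im ≤ T}, (mult p.1 : ℝ) * mult p.2 * (Real.cos (α * Real.log T * (p.1.im - p.2.im)) *
      (4 / (4 + (p.1.im - p.2.im) ^ 2)))) / (T * Real.log T / (2 * Real.pi))

/-- the conjectured pair correlation at the short distances `a ∈ (0, ε₀)`, without the pairs of
zeros at distances `o (1 / log T)` -/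
def ShortRange (l : Filter ℝ) (ε₀ : ℝ) : Prop := ∀ a b : ℝ, 0 < a → a < b → b < ε₀ →
  Tendsto (fun T => ((Nstar T b : ℝ) - Nstar T a) / (T * Real.log T)) l (𝓝 (g b - g a))

/-- the upper bound `ℓ + C exp (-c a)` for the means of `F` over `[a, a + ℓ]`, for all large `a` -/
def FarMeans (l : Filter ℝ) (ℓ : ℝ) : Prop := ∃ C c a₀ : ℝ, 0 < C ∧ 0 < c ∧ 0 < a₀ ∧
  ∀ a : ℝ, a₀ ≤ a → ∀ ε : ℝ, 0 < ε → ∀ᶠ T in l,
    ∫ α in a..(a + ℓ), F T α ≤ ℓ + C * Real.exp (-(c * a)) + ε

open Pool.Agent.Y749.Rig Pool.Agent.Q85.Rig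

lemma g_eq (a : ℝ) : 2 * Real.pi * g a = ∫ x in (0 : ℝ)..a, FF x := by
  have hpi := Real.pi_pos
  unfold g
  rw [← mul_assoc, mul_one_div, div_self (by positivity), one_mul]
  rfl

/-- the ordinates are bounded away from zero -/
lemma im_lower : ∃ δ : ℝ, 0 < δ ∧ ∀ s ∈ Zeros, 0 < s.im → δ ≤ s.im := by
  classical
  rcases ((ZZ 1).filter fun s => 0 < s.im).eq_empty_or_nonempty with h | h
  · refine ⟨1, one_pos, fun s hs h0 => ?_⟩
    by_contra hcon
    push Not at hcon
    have : s ∈ (ZZ 1).filter fun s => 0 < s.im := by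
      rw [Finset.mem_filter, mem_ZZ]
      exact ⟨⟨hs.1, hs.2.1, hs.2.2, h0.le, hcon.le⟩, h0⟩
    rw [h] at this
    exact absurd this (Finset.notMem_empty _)
  · obtain ⟨s₀, hs₀, hmin⟩ := Finset.exists_min_image _ (fun s : ℂ => s.im) h
    rw [Finset.mem_filter] at hs₀
    refine ⟨min 1 s₀.im, lt_min one_pos hs₀.2, fun s hs h0 => ?_⟩
    rcases le_or_gt s.im 1 with h1 | h1
    · refine (min_le_right _ _).trans (hmin s ?_)
      rw [Finset.mem_filter, mem_ZZ]
      exact ⟨⟨hs.1, hs.2.1, hs.2.2, h0.le, h1⟩, h0⟩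
    · exact (min_le_left _ _).trans h1.le

lemma Nstar_eq (a : ℝ) : ∀ᶠ T in atTop,
    2 * Real.pi * ((Nstar T a : ℝ) / (T * Real.log T)) = NS T a := by
  classical
  have hpi := Real.pi_pos
  obtain ⟨δ, hδ, hlow⟩ := im_lower
  have h1 : ∀ᶠ T : ℝ in atTop, 2 * Real.pi * |a| / δ + 1 ≤ Real.log T :=
    Real.tendsto_log_atTop.eventually_ge_atTop _
  filter_upwards [h1, eventually_ge_atTop 10] with T hT hT10
  have hL : 0 < Real.log T := by
    have : 0 ≤ 2 * Real.pi * |a| / δ := by positivity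
    linarith
  have hT0 : 0 < T := by linarith
  have hsmall : 2 * Real.pi * a / Real.log T < δ := by
    rw [div_lt_iff₀ hL]
    have h2 : 2 * Real.pi * |a| / δ < Real.log T := by linarith
    rw [div_lt_iff₀ hδ] at h2
    have h3 : 2 * Real.pi * a ≤ 2 * Real.pi * |a| := by
      have := le_abs_self a
      nlinarith
    linarith
  have hset : {p : ℂ × ℂ | p.1 ∈ Zeros ∧ p.2 ∈ Zeros ∧ 0 < p.1.im ∧ p.1.im ≤ T ∧
      0 < p.1.im - p.2.im ∧ p.1.im - p.2.im ≤ 2 * Real.pi * a / Real.log T} =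
      (((ZZ T ×ˢ ZZ T).filter fun p : ℂ × ℂ =>
        (p.1.im - p.2.im) * Real.log T / (2 * Real.pi) ∈ Set.Ioc 0 a : Finset (ℂ × ℂ)) :
          Set (ℂ × ℂ)) := by
    ext p
    rw [Finset.coe_filter]
    simp only [Set.mem_ofPred_eq, Finset.mem_product, mem_ZZ, Set.mem_Ioc]
    have e1 : 0 < p.1.im - p.2.im ↔ 0 < (p.1.im - p.2.im) * Real.log T / (2 * Real.pi) := by
      constructor
      · intro h; positivity
      · intro h
        by_contra hcon
        push Not at hcon
        have : (p.1.im - p.2.im) * Real.log T / (2 * Real.pi) ≤ 0 :=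
          div_nonpos_of_nonpos_of_nonneg (mul_nonpos_of_nonpos_of_nonneg hcon hL.le) (by positivity)
        linarith
    have e2 : p.1.im - p.2.im ≤ 2 * Real.pi * a / Real.log T ↔
        (p.1.im - p.2.im) * Real.log T / (2 * Real.pi) ≤ a := by
      rw [le_div_iff₀ hL, div_le_iff₀ (by positivity), mul_comm a]
    constructor
    · rintro ⟨h1, h2, h3, h4, h5, h6⟩
      have h7 : 0 ≤ p.2.im := by
        by_contra hcon
        push Not at hcon
        have := hlow p.1 h1 h3
        linarith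
      exact ⟨⟨⟨h1.1, h1.2.1, h1.2.2, h3.le, h4⟩, ⟨h2.1, h2.2.1, h2.2.2, h7, by linarith⟩⟩,
        e1.1 h5, e2.1 h6⟩
    · rintro ⟨⟨⟨a1, a2, a3, a4, a5⟩, ⟨b1, b2, b3, b4, b5⟩⟩, c1, c2⟩
      have c3 := e1.2 c1
      exact ⟨⟨a1, a2, a3⟩, ⟨b1, b2, b3⟩, by linarith, a5, c3, e2.2 c2⟩
  have hN : (Nstar T a : ℝ) = RR ((Set.Ioc 0 a).indicator fun _ => 1) (ZZ T) (ZZ T)
      (Real.log T) := by
    unfold Nstar RR
    rw [hset, finsum_mem_coe_finset, ← Finset.sum_product']
    push_cast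
    rw [Finset.sum_filter]
    refine Finset.sum_congr rfl fun p _ => ?_
    by_cases h : (p.1.im - p.2.im) * Real.log T / (2 * Real.pi) ∈ Set.Ioc 0 a
    · rw [if_pos h, Set.indicator_of_mem h, mul_one]
      rfl
    · rw [if_neg h, Set.indicator_of_notMem h, mul_zero]
  unfold NS
  rw [Mp_real hT10 measurableSet_Ioc, hN]
  unfold nT
  field_simp

/-- the number of pairs with ordinate zero -/
noncomputable def K0 : ℝ := ∑ p ∈ ZZ 0 ×ˢ ZZ 0, mm p.1 * mm p.2

lemma Nequal_eq {T : ℝ} (hT : 10 ≤ T) : (Nequal T : ℝ) + K0 = DG T * nT T := by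
  classical
  have hpi := Real.pi_pos
  have hn := nT_pos hT
  have hL : 0 < Real.log T := Real.log_pos (by linarith)
  have hset : {p : ℂ × ℂ | p.1 ∈ Zeros ∧ p.2 ∈ Zeros ∧ 0 < p.1.im ∧ p.1.im ≤ T ∧
      p.1.im = p.2.im} = (((ZZ T ×ˢ ZZ T).filter fun p : ℂ × ℂ =>
        p.1.im = p.2.im ∧ 0 < p.1.im : Finset (ℂ × ℂ)) : Set (ℂ × ℂ)) := by
    ext p
    rw [Finset.coe_filter]
    simp only [Set.mem_ofPred_eq, Finset.mem_product, mem_ZZ]
    constructor
    · rintro ⟨h1, h2, h3, h4, h5⟩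
      exact ⟨⟨⟨h1.1, h1.2.1, h1.2.2, h3.le, h4⟩, ⟨h2.1, h2.2.1, h2.2.2, by linarith,
        by linarith⟩⟩, h5, h3⟩
    · rintro ⟨⟨⟨a1, a2, a3, a4, a5⟩, ⟨b1, b2, b3, b4, b5⟩⟩, c1, c2⟩
      exact ⟨⟨a1, a2, a3⟩, ⟨b1, b2, b3⟩, c2, a5, c1⟩
  have hK : K0 = ∑ p ∈ (ZZ T ×ˢ ZZ T).filter (fun p : ℂ × ℂ => p.1.im = p.2.im ∧ ¬ 0 < p.1.im),
      mm p.1 * mm p.2 := by
    unfold K0
    refine Finset.sum_congr ?_ fun _ _ => rfl
    ext p
    rw [Finset.mem_filter]
    simp only [Finset.mem_product, mem_ZZ]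
    constructor
    · rintro ⟨⟨a1, a2, a3, a4, a5⟩, ⟨b1, b2, b3, b4, b5⟩⟩
      exact ⟨⟨⟨a1, a2, a3, a4, by linarith⟩, ⟨b1, b2, b3, b4, by linarith⟩⟩, by linarith,
        by linarith⟩
    · rintro ⟨⟨⟨a1, a2, a3, a4, a5⟩, ⟨b1, b2, b3, b4, b5⟩⟩, c1, c2⟩
      exact ⟨⟨a1, a2, a3, a4, by linarith⟩, ⟨b1, b2, b3, b4, by linarith⟩⟩
  have hD : DG T * nT T = ∑ p ∈ (ZZ T ×ˢ ZZ T).filter (fun p : ℂ × ℂ => p.1.im = p.2.im),
      mm p.1 * mm p.2 := by
    unfold DG
    rw [Mp_real hT (measurableSet_singleton 0), div_mul_cancel₀ _ hn.ne']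
    unfold RR
    rw [← Finset.sum_product', Finset.sum_filter]
    refine Finset.sum_congr rfl fun p _ => ?_
    by_cases h : p.1.im = p.2.im
    · rw [if_pos h, h, sub_self, zero_mul, zero_div, Set.indicator_of_mem (Set.mem_singleton _),
        mul_one]
    · rw [if_neg h, Set.indicator_of_notMem, mul_zero]
      rw [Set.mem_singleton_iff]
      intro h0
      apply h
      have h1 : (p.1.im - p.2.im) * Real.log T = 0 := by
        have := (div_eq_zero_iff.1 h0).resolve_right (by positivity)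
        exact this
      have := (mul_eq_zero.1 h1).resolve_right hL.ne'
      linarith
  have hN : (Nequal T : ℝ) = ∑ p ∈ (ZZ T ×ˢ ZZ T).filter (fun p : ℂ × ℂ =>
      p.1.im = p.2.im ∧ 0 < p.1.im), mm p.1 * mm p.2 := by
    unfold Nequal
    rw [hset, finsum_mem_coe_finset]
    push_cast
    rfl
  rw [hN, hK, hD, ← Finset.filter_filter, ← Finset.filter_filter, Finset.sum_filter_add_sum_filter_not]

lemma Noff_eq {T : ℝ} (hT : 0 ≤ T) :
    NF T = (Noff T : ℝ) + ∑ s ∈ (ZZ 0).filter (fun s => s.re ≠ 1 / 2), mm s := by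
  classical
  have hset : {s : ℂ | s ∈ Zeros ∧ 0 < s.im ∧ s.im ≤ T ∧ s.re ≠ 1 / 2} =
      (((ZZ T).filter fun s : ℂ => s.re ≠ 1 / 2 ∧ 0 < s.im : Finset ℂ) : Set ℂ) := by
    ext s
    rw [Finset.coe_filter]
    simp only [Set.mem_ofPred_eq, mem_ZZ]
    constructor
    · rintro ⟨h1, h2, h3, h4⟩
      exact ⟨⟨h1.1, h1.2.1, h1.2.2, h2.le, h3⟩, h4, h2⟩
    · rintro ⟨⟨a1, a2, a3, a4, a5⟩, c1, c2⟩
      exact ⟨⟨a1, a2, a3⟩, c2, a5, c1⟩
  have hN : (Noff T : ℝ) = ∑ s ∈ (ZZ T).filter (fun s : ℂ => s.re ≠ 1 / 2 ∧ 0 < s.im), mm s := by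
    unfold Noff
    rw [hset, finsum_mem_coe_finset]
    push_cast
    rfl
  have hK : (ZZ 0).filter (fun s => s.re ≠ 1 / 2) =
      (ZZ T).filter (fun s : ℂ => s.re ≠ 1 / 2 ∧ ¬ 0 < s.im) := by
    ext s
    rw [Finset.mem_filter, Finset.mem_filter, mem_ZZ, mem_ZZ]
    constructor
    · rintro ⟨⟨a1, a2, a3, a4, a5⟩, c1⟩
      exact ⟨⟨a1, a2, a3, a4, by linarith⟩, c1, by linarith⟩
    · rintro ⟨⟨a1, a2, a3, a4, a5⟩, c1, c2⟩
      exact ⟨⟨a1, a2, a3, a4, by linarith⟩, c1⟩
  unfold NF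
  rw [hN, hK, ← Finset.filter_filter, ← Finset.filter_filter, Finset.sum_filter_add_sum_filter_not]

lemma TlogT : Tendsto (fun T : ℝ => T * Real.log T) atTop atTop :=
  tendsto_id.atTop_mul_atTop₀ Real.tendsto_log_atTop

/-- the windows of `N*` -/
lemma Nstar_win {a b : ℝ} (ha : 0 ≤ a) (hab : a ≤ b) : ∀ᶠ T in atTop,
    2 * Real.pi * (((Nstar T b : ℝ) - Nstar T a) / (T * Real.log T)) =
      (Mp T).real (Set.Ioc a b) := by
  filter_upwards [Nstar_eq a, Nstar_eq b] with T h1 h2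
  have hfin := Mp_fin T
  have h3 : NS T b = NS T a + (Mp T).real (Set.Ioc a b) := by
    unfold NS
    rw [← Set.Ioc_union_Ioc_eq_Ioc ha hab, MeasureTheory.measureReal_union _ measurableSet_Ioc]
    rw [Set.disjoint_left]
    intro x hx hx'
    exact absurd hx.2 (not_le.2 hx'.1)
  rw [sub_div, mul_sub, h1, h2, h3]
  ring

lemma F_eq {T : ℝ} (hT : 10 ≤ T) (α : ℝ) : F T α = Fr T α := by
  rw [Fr_sum hT]
  unfold F
  have hset : {p : ℂ × ℂ | p.1 ∈ Zeros ∧ p.2 ∈ Zeros ∧ 0 < p.1.im ∧ p.1.im ≤ T ∧ 0 < p.2.im ∧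
      p.2.im ≤ T} = ((ZZ T ×ˢ ZZ T : Finset (ℂ × ℂ)) : Set (ℂ × ℂ)) := by
    ext p
    rw [Finset.mem_coe, Finset.mem_product, mem_ZZ, mem_ZZ]
    constructor
    · rintro ⟨h1, h2, h3, h4, h5, h6⟩
      exact ⟨⟨h1.1, h1.2.1, h1.2.2, h3.le, h4⟩, ⟨h2.1, h2.2.1, h2.2.2, h5.le, h6⟩⟩
    · rintro ⟨h1, h2⟩
      exact ⟨⟨h1.1, h1.2.1, h1.2.2.1⟩, ⟨h2.1, h2.2.1, h2.2.2.1⟩, zs_im_pos h1, h1.2.2.2.2,
        zs_im_pos h2, h2.2.2.2.2⟩
  rw [hset, finsum_mem_coe_finset, Finset.sum_product]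
  rfl

/-- **The pair correlation conjecture and Montgomery's function far out.** -/
theorem result (l : Filter ℝ) (hl : l ≤ atTop) (ε₀ : ℝ) (hε₀ : 0 < ε₀)
    (ℓ₁ ℓ₂ : ℝ) (h₁ : 0 < ℓ₁) (h₂ : 0 < ℓ₂) (hirr : Irrational (ℓ₁ / ℓ₂)) :
    (Conjecture l ↔ (AlmostAllOnLine l ∧ ShortRange l ε₀ ∧ FarMeans l ℓ₁ ∧ FarMeans l ℓ₂)) ∧
      (Conjecture l → AlmostAllDistinct l) := by
  have hpi := Real.pi_pos
  have h2pi : 0 < 2 * Real.pi := by positivity
  have hev : ∀ᶠ T in l, (10 : ℝ) ≤ T := hl (eventually_ge_atTop 10)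
  -- `N*` and the measures
  have hNS : ∀ a : ℝ, ∀ᶠ T in l, 2 * Real.pi * ((Nstar T a : ℝ) / (T * Real.log T)) = NS T a :=
    fun a => hl (Nstar_eq a)
  have hDG : AlmostAllDistinct l ↔ Tendsto DG l (𝓝 1) := by
    have h1 : Tendsto (fun T => K0 / (T * Real.log T)) l (𝓝 0) :=
      (TlogT.const_div_atTop K0).mono_left hl
    have h2 : ∀ᶠ T in l, (Nequal T : ℝ) / (T * Real.log T) =
        1 / (2 * Real.pi) * DG T - K0 / (T * Real.log T) := by
      filter_upwards [hev] with T hT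
      have h3 := Nequal_eq hT
      have h4 : (Nequal T : ℝ) = DG T * nT T - K0 := by linarith
      have hL := Real.log_pos (show (1 : ℝ) < T by linarith)
      have hT0 : 0 < T := by linarith
      rw [h4]
      unfold nT
      field_simp
    unfold AlmostAllDistinct
    rw [tendsto_congr' h2]
    constructor
    · intro h
      have h6 := (h.add h1).const_mul (2 * Real.pi)
      have e1 : 2 * Real.pi * (1 / (2 * Real.pi) + 0) = 1 := by field_simp; ring
      rw [e1] at h6
      refine h6.congr fun T => ?_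
      rw [sub_add_cancel, ← mul_assoc, mul_one_div, div_self h2pi.ne', one_mul]
    · intro h
      have h6 := (h.const_mul (1 / (2 * Real.pi))).sub h1
      rwa [mul_one, sub_zero] at h6
  have hQ : Conjecture l ↔
      ∀ a : ℝ, 0 < a → Tendsto (fun T => NS T a) l (𝓝 (∫ x in (0 : ℝ)..a, FF x)) := by
    unfold Conjecture
    refine forall_congr' fun a => imp_congr_right fun ha => ?_
    constructor
    · intro h
      have h1 := h.const_mul (2 * Real.pi)
      rw [g_eq] at h1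
      exact h1.congr' (hNS a)
    · intro h
      have h1 := h.const_mul (1 / (2 * Real.pi))
      have e1 : 1 / (2 * Real.pi) * ∫ x in (0 : ℝ)..a, FF x = g a := by
        rw [← g_eq, ← mul_assoc, one_div_mul_cancel h2pi.ne', one_mul]
      rw [e1] at h1
      refine h1.congr' ?_
      filter_upwards [hNS a] with T hT
      rw [← hT, ← mul_assoc, one_div_mul_cancel h2pi.ne', one_mul]
  -- the conjecture implies the other statements
  have hfwd : Conjecture l → Tendsto DG l (𝓝 1) := by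
    intro h
    refine (zeta_critF hl (C' := 0) (c := 1) (a₀ := 1) le_rfl one_pos one_pos
      (Or.inl fun a ha ε hε => ?_)).1
    filter_upwards [((hQ.1 h) a (by linarith)).eventually (eventually_gt_nhds
      (show (∫ x in (0 : ℝ)..a, FF x) - ε < ∫ x in (0 : ℝ)..a, FF x by linarith))] with T hT
    rw [zero_mul]
    linarith
  have hfar : Conjecture l → ∀ p : ℝ, 0 < p → FarMeans l p := by
    intro h p hp
    have hw := weak_fwd hl (hfwd h) (hQ.1 h)
    refine ⟨1, 1, 1, one_pos, one_pos, one_pos, fun a ha ε hε => ?_⟩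
    have h3 := up_weak hl hw (a + p) a (a + p) (by linarith) (by linarith) le_rfl ε hε
    have h4 : ∫ α in a..(a + p), mn α ≤ p := by
      have h5 : ∫ α in a..(a + p), mn α ≤ ∫ α in a..(a + p), (1 : ℝ) :=
        intervalIntegral.integral_mono_on (by linarith) (mn_cont.intervalIntegrable _ _)
          (by simp) fun x _ => by
            have := mn_le x
            linarith
      rw [intervalIntegral.integral_const, smul_eq_mul, mul_one] at h5
      linarith
    filter_upwards [h3, hev] with T hT hT10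
    have h6 : ∀ α : ℝ, Fr T α = F T α := fun α => (F_eq hT10 α).symm
    simp_rw [h6] at hT
    have := Real.exp_pos (-(1 * a))
    linarith
  refine ⟨⟨fun h => ⟨?_, ?_, hfar h ℓ₁ h₁, hfar h ℓ₂ h₂⟩, ?_⟩, fun h => hDG.2 (hfwd h)⟩
  · have h1 := hfwd h
    have h2 := off_of_DG hl fun ε hε => by
      filter_upwards [h1.eventually (eventually_lt_nhds (show (1 : ℝ) < 1 + ε by linarith))]
        with T hT using hT.le
    unfold AlmostAllOnLine
    rw [Metric.tendsto_nhds]
    intro ε hε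
    filter_upwards [h2 (ε / 2) (by positivity), hev] with T hT hT10
    have h3 : 0 < T * Real.log T := by
      have := Real.log_pos (show (1 : ℝ) < T by linarith)
      have : 0 < T := by linarith
      positivity
    rw [Noff_eq (by linarith)] at hT
    have h4 : 0 ≤ ∑ s ∈ (ZZ 0).filter (fun s => s.re ≠ 1 / 2), mm s :=
      Finset.sum_nonneg fun s _ => mm_nonneg s
    rw [Real.dist_eq, sub_zero, abs_of_nonneg (by positivity), div_lt_iff₀ h3]
    nlinarith
  · intro a b ha hab _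
    refine ((h b (by linarith)).sub (h a ha)).congr fun T => ?_
    rw [sub_div]
  rintro ⟨hoff, hs, hF₁, hF₂⟩
  have hNF : ∀ η : ℝ, 0 < η → ∀ᶠ T : ℝ in l, NF T ≤ η * (T * Real.log T) := by
    intro η hη
    obtain ⟨K, hK⟩ : ∃ K : ℝ, K = ∑ s ∈ (ZZ 0).filter (fun s => s.re ≠ 1 / 2), mm s := ⟨_, rfl⟩
    filter_upwards [hoff.eventually (eventually_lt_nhds (show 0 < η / 2 by positivity)),
      hev, hl (TlogT.eventually_ge_atTop (K * (2 / η)))] with T hT hT10 hT2
    have h3 : 0 < T * Real.log T := by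
      have := Real.log_pos (show (1 : ℝ) < T by linarith)
      have : 0 < T := by linarith
      positivity
    rw [div_lt_iff₀ h3] at hT
    rw [Noff_eq (by linarith), ← hK]
    have h4 : K ≤ η / 2 * (T * Real.log T) := by
      have := mul_le_mul_of_nonneg_left hT2 (show 0 ≤ η / 2 by positivity)
      rwa [show η / 2 * (K * (2 / η)) = K by field_simp] at this
    linarith
  -- the windows
  have hweak : Weak l := by
    refine dual_mainF hl hNF hε₀ (fun a b ha hab hb => ?_) h₁ h₂ hirr ?_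
    · have h3 := (hs a b ha hab hb).const_mul (2 * Real.pi)
      have h4 : 2 * Real.pi * (g b - g a) = ∫ x in a..b, FF x := by
        rw [mul_sub, g_eq, g_eq, intervalIntegral.integral_interval_sub_left (FF_ii _ _) (FF_ii _ _)]
      rw [h4] at h3
      exact h3.congr' (hl (Nstar_win ha.le hab.le))
    · have hk : ∀ p : ℝ, FarMeans l p → ∃ C' c a₀ : ℝ, 0 < C' ∧ 0 < c ∧ 0 < a₀ ∧
          ∀ a : ℝ, a₀ ≤ a → ∀ ε : ℝ, 0 < ε → ∀ᶠ T in l,
            ∫ α in a..(a + p), Fr T α ≤ p + C' * Real.exp (-(c * a)) + ε := by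
        rintro p ⟨C, c, a₀, hC, hc, ha₀, h⟩
        refine ⟨C, c, a₀, hC, hc, ha₀, fun a ha ε hε => ?_⟩
        filter_upwards [h a ha ε hε, hev] with T hT hT10
        have : ∀ α : ℝ, Fr T α = F T α := fun α => (F_eq hT10 α).symm
        simp_rw [this]
        exact hT
      rintro p (rfl | rfl)
      · exact hk _ hF₁
      · exact hk _ hF₂
  have hwin : ∀ α β : ℝ, 0 < α → α < β →
      Tendsto (fun T => (Mp T).real (Set.Icc α β)) l (𝓝 (∫ x in α..β, FF x)) :=
    fun α β hα hαβ => weak_icc hl hweak hα hαβ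
  have hall : Tendsto DG l (𝓝 1) ∧
      ∀ a : ℝ, 0 < a → Tendsto (fun T => NS T a) l (𝓝 (∫ x in (0 : ℝ)..a, FF x)) := by
    refine zeta_critF hl (C' := 0) (c := 1) (a₀ := 1) le_rfl one_pos one_pos
      (Or.inl fun a ha ε hε => ?_)
    obtain ⟨d, hd⟩ : ∃ d : ℝ, d = min (ε / 4) (1 / 2) := ⟨_, rfl⟩
    have hd0 : 0 < d := by rw [hd]; exact lt_min (by positivity) (by norm_num)
    have hd1 : d ≤ ε / 4 := by rw [hd]; exact min_le_left _ _
    have hd2 : d ≤ 1 / 2 := by rw [hd]; exact min_le_right _ _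
    have h1 : (∫ x in (0 : ℝ)..a, FF x) = (∫ x in (0 : ℝ)..d, FF x) + ∫ x in d..a, FF x :=
      (intervalIntegral.integral_add_adjacent_intervals (FF_ii _ _) (FF_ii _ _)).symm
    have h2 : ∫ x in (0 : ℝ)..d, FF x ≤ d := by
      have := gF_le hd0.le
      rw [intervalIntegral.integral_same] at this
      linarith
    filter_upwards [(hwin d a hd0 (by linarith)).eventually (eventually_gt_nhds
      (show (∫ x in d..a, FF x) - ε / 4 < ∫ x in d..a, FF x by linarith))] with T hT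
    have h3 : (Mp T).real (Set.Icc d a) ≤ NS T a := by
      have := Mp_fin T
      refine MeasureTheory.measureReal_mono ?_ (MeasureTheory.measure_ne_top _ _)
      intro x hx
      exact ⟨by linarith [hx.1], hx.2⟩
    rw [zero_mul]
    linarith
  exact hQ.2 hall.2

end Pool.Agent.Results.MP_f58427_nt.FarMeansOfF
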