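import Pool.Agent.Q85.Rig.Fil

/-!
# Montgomery's conjecture is equivalent to lower bounds for distant windows

Unconditional.  Let `N*(T, a)` be as in the problem and
`g a = (1 / 2π) ∫_0^a (1 - (sin πu / πu)²) du`.  The conjecture `N*(T, a) = (g a + o(1)) T log T`
for all `a > 0` is equivalent to the lower bounds
`N*(T, a) ≥ (g a - C exp (-c a) - o(1)) T log T` for all large `a`, with some `C, c > 0`.  It is
also equivalent to the corresponding upper bounds for all large `a` together with the statement that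
the number of pairs of equal ordinates is `~ (T / 2π) log T`.  In each case almost all zeros of zeta
are on the critical line.  The same along every sequence of `T`, and along every filter.

Idea of the proof.  By the theorem of Selberg and Fujii on the number variance (unconditional) the
lower bounds imply that the number of pairs of equal ordinates is `~ (T / 2π) log T`; since a zero
`ρ` off the line has the ordinate of `1 - conj ρ`, almost all zeros are then on the critical line.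
Let `μ` be a limit of the normalised measures of the differences, and `ν` the difference of `μ` and
of the measure `δ_0 + (1 - (sin πu / πu)²) du` of the conjecture.  Since almost all zeros are on the
line, `ν` is orthogonal to the band-limited functions of small band.  Put `D x = ν [-x, x]` for
`x > 0`.  For a suitable band-limited `k ≥ 0` the even function `x D(x) k(x)` has a Fourier
transform which vanishes in a neighbourhood of `0`, and by the hypothesis it is bounded on one side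
by an exponentially small function.  Then its Fourier transform is analytic (the other side has
finite exponential moments, by positivity), so it vanishes.
-/

set_option autoImplicit false

open Filter Topology

namespace Pool.Agent.Results.MP_f58427_nt.LowerBoundsSuffice

/-- the nontrivial zeros of `ζ` -/
def Zeros : Set ℂ := {s : ℂ | riemannZeta s = 0 ∧ 0 < s.re ∧ s.re < 1}

/-- the multiplicity of `s` as a zero of `ζ` -/
noncomputable def mult (s : ℂ) : ℕ := analyticOrderNatAt riemannZeta s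

/-- `N*(T, a)` as in the problem: the number of ordered pairs `(γ, γ')` of ordinates of nontrivial
zeros, counted with multiplicity, with `0 < γ ≤ T` and `0 < γ - γ' ≤ 2πa / log T` -/
noncomputable def Nstar (T a : ℝ) : ℕ :=
  ∑ᶠ p ∈ {p : ℂ × ℂ | p.1 ∈ Zeros ∧ p.2 ∈ Zeros ∧ 0 < p.1.im ∧ p.1.im ≤ T ∧
    0 < p.1.im - p.2.im ∧ p.1.im - p.2.im ≤ 2 * Real.pi * a / Real.log T}, mult p.1 * mult p.2

/-- the number of ordered pairs of zeros with equal ordinate in `(0, T]`, counted with multiplicity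
(`∑ m²` over the ordinates, where `m` is the multiplicity of the ordinate) -/
noncomputable def Nequal (T : ℝ) : ℕ :=
  ∑ᶠ p ∈ {p : ℂ × ℂ | p.1 ∈ Zeros ∧ p.2 ∈ Zeros ∧ 0 < p.1.im ∧ p.1.im ≤ T ∧ p.1.im = p.2.im},
    mult p.1 * mult p.2

/-- the number of zeros off the critical line with ordinate in `(0, T]`, with multiplicity -/
noncomputable def Noff (T : ℝ) : ℕ :=
  ∑ᶠ s ∈ {s : ℂ | s ∈ Zeros ∧ 0 < s.im ∧ s.im ≤ T ∧ s.re ≠ 1 / 2}, mult s

/-- the conjectured value -/
noncomputable def g (a : ℝ) : ℝ :=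
  1 / (2 * Real.pi) * ∫ u in (0 : ℝ)..a, (1 - (Real.sin (Real.pi * u) / (Real.pi * u)) ^ 2)

/-- Almost all zeros are on the critical line, along the filter `l`. -/
def AlmostAllOnLine (l : Filter ℝ) : Prop :=
  Tendsto (fun T => (Noff T : ℝ) / (T * Real.log T)) l (𝓝 0)

/-- The number of pairs of equal ordinates is `~ (T / 2π) log T`. -/
def AlmostAllDistinct (l : Filter ℝ) : Prop :=
  Tendsto (fun T => (Nequal T : ℝ) / (T * Real.log T)) l (𝓝 (1 / (2 * Real.pi)))

/-- The asymptotic formula of Q1, along the filter `l` -/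
def Conjecture (l : Filter ℝ) : Prop :=
  ∀ a : ℝ, 0 < a → Tendsto (fun T => (Nstar T a : ℝ) / (T * Real.log T)) l (𝓝 (g a))

/-- the lower bounds for the distant windows `(0, a]` -/
def LowerBounds (l : Filter ℝ) : Prop := ∃ C c a₀ : ℝ, 0 < C ∧ 0 < c ∧ 0 < a₀ ∧
  ∀ a : ℝ, a₀ ≤ a → ∀ ε : ℝ, 0 < ε → ∀ᶠ T in l,
    g a - C * Real.exp (-(c * a)) - ε ≤ (Nstar T a : ℝ) / (T * Real.log T)

/-- the upper bounds for the distant windows `(0, a]` -/
def UpperBounds (l : Filter ℝ) : Prop := ∃ C c a₀ : ℝ, 0 < C ∧ 0 < c ∧ 0 < a₀ ∧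
  ∀ a : ℝ, a₀ ≤ a → ∀ ε : ℝ, 0 < ε → ∀ᶠ T in l,
    (Nstar T a : ℝ) / (T * Real.log T) ≤ g a + C * Real.exp (-(c * a)) + ε

open Pool.Agent.Y749.Rig Pool.Agent.Q85.Rig

lemma g_eq (a : ℝ) : 2 * Real.pi * g a = ∫ x in (0 : ℝ)..a, FF x := by
  have hpi := Real.pi_pos
  unfold g
  rw [← mul_assoc, mul_one_div, div_self (by positivity), one_mul]
  rfl

/-- the ordinates are bounded away from zero -/
lemma im_lower : ∃ δ : ℝ, 0 < δ ∧ ∀ s ∈ Zeros, 0 < s.im → δ ≤ s.im := by
  classical
  rcases ((ZZ 1).filter fun s => 0 < s.im).eq_empty_or_nonempty with h | h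
  · refine ⟨1, one_pos, fun s hs h0 => ?_⟩
    by_contra hcon
    push Not at hcon
    have : s ∈ (ZZ 1).filter fun s => 0 < s.im := by
      rw [Finset.mem_filter, mem_ZZ]
      exact ⟨⟨hs.1, hs.2.1, hs.2.2, h0.le, hcon.le⟩, h0⟩
    rw [h] at this
    exact absurd this (Finset.notMem_empty _)
  · obtain ⟨s₀, hs₀, hmin⟩ := Finset.exists_min_image _ (fun s : ℂ => s.im) h
    rw [Finset.mem_filter] at hs₀
    refine ⟨min 1 s₀.im, lt_min one_pos hs₀.2, fun s hs h0 => ?_⟩
    rcases le_or_gt s.im 1 with h1 | h1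
    · refine (min_le_right _ _).trans (hmin s ?_)
      rw [Finset.mem_filter, mem_ZZ]
      exact ⟨⟨hs.1, hs.2.1, hs.2.2, h0.le, h1⟩, h0⟩
    · exact (min_le_left _ _).trans h1.le

lemma Nstar_eq (a : ℝ) : ∀ᶠ T in atTop,
    2 * Real.pi * ((Nstar T a : ℝ) / (T * Real.log T)) = NS T a := by
  classical
  have hpi := Real.pi_pos
  obtain ⟨δ, hδ, hlow⟩ := im_lower
  have h1 : ∀ᶠ T : ℝ in atTop, 2 * Real.pi * |a| / δ + 1 ≤ Real.log T :=
    Real.tendsto_log_atTop.eventually_ge_atTop _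
  filter_upwards [h1, eventually_ge_atTop 10] with T hT hT10
  have hL : 0 < Real.log T := by
    have : 0 ≤ 2 * Real.pi * |a| / δ := by positivity
    linarith
  have hT0 : 0 < T := by linarith
  have hsmall : 2 * Real.pi * a / Real.log T < δ := by
    rw [div_lt_iff₀ hL]
    have h2 : 2 * Real.pi * |a| / δ < Real.log T := by linarith
    rw [div_lt_iff₀ hδ] at h2
    have h3 : 2 * Real.pi * a ≤ 2 * Real.pi * |a| := by
      have := le_abs_self a
      nlinarith
    linarith
  have hset : {p : ℂ × ℂ | p.1 ∈ Zeros ∧ p.2 ∈ Zeros ∧ 0 < p.1.im ∧ p.1.im ≤ T ∧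
      0 < p.1.im - p.2.im ∧ p.1.im - p.2.im ≤ 2 * Real.pi * a / Real.log T} =
      (((ZZ T ×ˢ ZZ T).filter fun p : ℂ × ℂ =>
        (p.1.im - p.2.im) * Real.log T / (2 * Real.pi) ∈ Set.Ioc 0 a : Finset (ℂ × ℂ)) :
          Set (ℂ × ℂ)) := by
    ext p
    rw [Finset.coe_filter]
    simp only [Set.mem_ofPred_eq, Finset.mem_product, mem_ZZ, Set.mem_Ioc]
    have e1 : 0 < p.1.im - p.2.im ↔ 0 < (p.1.im - p.2.im) * Real.log T / (2 * Real.pi) := by
      constructor
      · intro h; positivity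
      · intro h
        by_contra hcon
        push Not at hcon
        have : (p.1.im - p.2.im) * Real.log T / (2 * Real.pi) ≤ 0 :=
          div_nonpos_of_nonpos_of_nonneg (mul_nonpos_of_nonpos_of_nonneg hcon hL.le) (by positivity)
        linarith
    have e2 : p.1.im - p.2.im ≤ 2 * Real.pi * a / Real.log T ↔
        (p.1.im - p.2.im) * Real.log T / (2 * Real.pi) ≤ a := by
      rw [le_div_iff₀ hL, div_le_iff₀ (by positivity), mul_comm a]
    constructor
    · rintro ⟨h1, h2, h3, h4, h5, h6⟩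
      have h7 : 0 ≤ p.2.im := by
        by_contra hcon
        push Not at hcon
        have := hlow p.1 h1 h3
        linarith
      exact ⟨⟨⟨h1.1, h1.2.1, h1.2.2, h3.le, h4⟩, ⟨h2.1, h2.2.1, h2.2.2, h7, by linarith⟩⟩,
        e1.1 h5, e2.1 h6⟩
    · rintro ⟨⟨⟨a1, a2, a3, a4, a5⟩, ⟨b1, b2, b3, b4, b5⟩⟩, c1, c2⟩
      have c3 := e1.2 c1
      exact ⟨⟨a1, a2, a3⟩, ⟨b1, b2, b3⟩, by linarith, a5, c3, e2.2 c2⟩
  have hN : (Nstar T a : ℝ) = RR ((Set.Ioc 0 a).indicator fun _ => 1) (ZZ T) (ZZ T)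
      (Real.log T) := by
    unfold Nstar RR
    rw [hset, finsum_mem_coe_finset, ← Finset.sum_product']
    push_cast
    rw [Finset.sum_filter]
    refine Finset.sum_congr rfl fun p _ => ?_
    by_cases h : (p.1.im - p.2.im) * Real.log T / (2 * Real.pi) ∈ Set.Ioc 0 a
    · rw [if_pos h, Set.indicator_of_mem h, mul_one]
      rfl
    · rw [if_neg h, Set.indicator_of_notMem h, mul_zero]
  unfold NS
  rw [Mp_real hT10 measurableSet_Ioc, hN]
  unfold nT
  field_simp

/-- the number of pairs with ordinate zero -/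
noncomputable def K0 : ℝ := ∑ p ∈ ZZ 0 ×ˢ ZZ 0, mm p.1 * mm p.2

lemma Nequal_eq {T : ℝ} (hT : 10 ≤ T) : (Nequal T : ℝ) + K0 = DG T * nT T := by
  classical
  have hpi := Real.pi_pos
  have hn := nT_pos hT
  have hL : 0 < Real.log T := Real.log_pos (by linarith)
  have hset : {p : ℂ × ℂ | p.1 ∈ Zeros ∧ p.2 ∈ Zeros ∧ 0 < p.1.im ∧ p.1.im ≤ T ∧
      p.1.im = p.2.im} = (((ZZ T ×ˢ ZZ T).filter fun p : ℂ × ℂ =>
        p.1.im = p.2.im ∧ 0 < p.1.im : Finset (ℂ × ℂ)) : Set (ℂ × ℂ)) := by
    ext p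
    rw [Finset.coe_filter]
    simp only [Set.mem_ofPred_eq, Finset.mem_product, mem_ZZ]
    constructor
    · rintro ⟨h1, h2, h3, h4, h5⟩
      exact ⟨⟨⟨h1.1, h1.2.1, h1.2.2, h3.le, h4⟩, ⟨h2.1, h2.2.1, h2.2.2, by linarith,
        by linarith⟩⟩, h5, h3⟩
    · rintro ⟨⟨⟨a1, a2, a3, a4, a5⟩, ⟨b1, b2, b3, b4, b5⟩⟩, c1, c2⟩
      exact ⟨⟨a1, a2, a3⟩, ⟨b1, b2, b3⟩, c2, a5, c1⟩
  have hK : K0 = ∑ p ∈ (ZZ T ×ˢ ZZ T).filter (fun p : ℂ × ℂ => p.1.im = p.2.im ∧ ¬ 0 < p.1.im),
      mm p.1 * mm p.2 := by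
    unfold K0
    refine Finset.sum_congr ?_ fun _ _ => rfl
    ext p
    rw [Finset.mem_filter]
    simp only [Finset.mem_product, mem_ZZ]
    constructor
    · rintro ⟨⟨a1, a2, a3, a4, a5⟩, ⟨b1, b2, b3, b4, b5⟩⟩
      exact ⟨⟨⟨a1, a2, a3, a4, by linarith⟩, ⟨b1, b2, b3, b4, by linarith⟩⟩, by linarith,
        by linarith⟩
    · rintro ⟨⟨⟨a1, a2, a3, a4, a5⟩, ⟨b1, b2, b3, b4, b5⟩⟩, c1, c2⟩
      exact ⟨⟨a1, a2, a3, a4, by linarith⟩, ⟨b1, b2, b3, b4, by linarith⟩⟩
  have hD : DG T * nT T = ∑ p ∈ (ZZ T ×ˢ ZZ T).filter (fun p : ℂ × ℂ => p.1.im = p.2.im),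
      mm p.1 * mm p.2 := by
    unfold DG
    rw [Mp_real hT (measurableSet_singleton 0), div_mul_cancel₀ _ hn.ne']
    unfold RR
    rw [← Finset.sum_product', Finset.sum_filter]
    refine Finset.sum_congr rfl fun p _ => ?_
    by_cases h : p.1.im = p.2.im
    · rw [if_pos h, h, sub_self, zero_mul, zero_div, Set.indicator_of_mem (Set.mem_singleton _),
        mul_one]
    · rw [if_neg h, Set.indicator_of_notMem, mul_zero]
      rw [Set.mem_singleton_iff]
      intro h0
      apply h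
      have h1 : (p.1.im - p.2.im) * Real.log T = 0 := by
        have := (div_eq_zero_iff.1 h0).resolve_right (by positivity)
        exact this
      have := (mul_eq_zero.1 h1).resolve_right hL.ne'
      linarith
  have hN : (Nequal T : ℝ) = ∑ p ∈ (ZZ T ×ˢ ZZ T).filter (fun p : ℂ × ℂ =>
      p.1.im = p.2.im ∧ 0 < p.1.im), mm p.1 * mm p.2 := by
    unfold Nequal
    rw [hset, finsum_mem_coe_finset]
    push_cast
    rfl
  rw [hN, hK, hD, ← Finset.filter_filter, ← Finset.filter_filter, Finset.sum_filter_add_sum_filter_not]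

lemma Noff_eq {T : ℝ} (hT : 0 ≤ T) :
    NF T = (Noff T : ℝ) + ∑ s ∈ (ZZ 0).filter (fun s => s.re ≠ 1 / 2), mm s := by
  classical
  have hset : {s : ℂ | s ∈ Zeros ∧ 0 < s.im ∧ s.im ≤ T ∧ s.re ≠ 1 / 2} =
      (((ZZ T).filter fun s : ℂ => s.re ≠ 1 / 2 ∧ 0 < s.im : Finset ℂ) : Set ℂ) := by
    ext s
    rw [Finset.coe_filter]
    simp only [Set.mem_ofPred_eq, mem_ZZ]
    constructor
    · rintro ⟨h1, h2, h3, h4⟩
      exact ⟨⟨h1.1, h1.2.1, h1.2.2, h2.le, h3⟩, h4, h2⟩
    · rintro ⟨⟨a1, a2, a3, a4, a5⟩, c1, c2⟩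
      exact ⟨⟨a1, a2, a3⟩, c2, a5, c1⟩
  have hN : (Noff T : ℝ) = ∑ s ∈ (ZZ T).filter (fun s : ℂ => s.re ≠ 1 / 2 ∧ 0 < s.im), mm s := by
    unfold Noff
    rw [hset, finsum_mem_coe_finset]
    push_cast
    rfl
  have hK : (ZZ 0).filter (fun s => s.re ≠ 1 / 2) =
      (ZZ T).filter (fun s : ℂ => s.re ≠ 1 / 2 ∧ ¬ 0 < s.im) := by
    ext s
    rw [Finset.mem_filter, Finset.mem_filter, mem_ZZ, mem_ZZ]
    constructor
    · rintro ⟨⟨a1, a2, a3, a4, a5⟩, c1⟩
      exact ⟨⟨a1, a2, a3, a4, by linarith⟩, c1, by linarith⟩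
    · rintro ⟨⟨a1, a2, a3, a4, a5⟩, c1, c2⟩
      exact ⟨⟨a1, a2, a3, a4, by linarith⟩, c1⟩
  unfold NF
  rw [hN, hK, ← Finset.filter_filter, ← Finset.filter_filter, Finset.sum_filter_add_sum_filter_not]

lemma TlogT : Tendsto (fun T : ℝ => T * Real.log T) atTop atTop :=
  tendsto_id.atTop_mul_atTop₀ Real.tendsto_log_atTop

/-- **The criterion.** -/
theorem result (l : Filter ℝ) (hl : l ≤ atTop) :
    (Conjecture l ↔ LowerBounds l) ∧ (Conjecture l ↔ AlmostAllDistinct l ∧ UpperBounds l) ∧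
      (Conjecture l → AlmostAllOnLine l) := by
  have hpi := Real.pi_pos
  have h2pi : 0 < 2 * Real.pi := by positivity
  have hev : ∀ᶠ T in l, (10 : ℝ) ≤ T := hl (eventually_ge_atTop 10)
  -- `N*` and the measures
  have hNS : ∀ a : ℝ, ∀ᶠ T in l, 2 * Real.pi * ((Nstar T a : ℝ) / (T * Real.log T)) = NS T a :=
    fun a => hl (Nstar_eq a)
  have hDG : AlmostAllDistinct l ↔ Tendsto DG l (𝓝 1) := by
    have h1 : Tendsto (fun T => K0 / (T * Real.log T)) l (𝓝 0) :=
      (TlogT.const_div_atTop K0).mono_left hl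
    have h2 : ∀ᶠ T in l, (Nequal T : ℝ) / (T * Real.log T) =
        1 / (2 * Real.pi) * DG T - K0 / (T * Real.log T) := by
      filter_upwards [hev] with T hT
      have h3 := Nequal_eq hT
      have h4 : (Nequal T : ℝ) = DG T * nT T - K0 := by linarith
      have hL := Real.log_pos (show (1 : ℝ) < T by linarith)
      have hT0 : 0 < T := by linarith
      rw [h4]
      unfold nT
      field_simp
    unfold AlmostAllDistinct
    rw [tendsto_congr' h2]
    constructor
    · intro h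
      have h6 := (h.add h1).const_mul (2 * Real.pi)
      have e1 : 2 * Real.pi * (1 / (2 * Real.pi) + 0) = 1 := by field_simp; ring
      rw [e1] at h6
      refine h6.congr fun T => ?_
      rw [sub_add_cancel, ← mul_assoc, mul_one_div, div_self h2pi.ne', one_mul]
    · intro h
      have h6 := (h.const_mul (1 / (2 * Real.pi))).sub h1
      rwa [mul_one, sub_zero] at h6
  have hQ : Conjecture l ↔
      ∀ a : ℝ, 0 < a → Tendsto (fun T => NS T a) l (𝓝 (∫ x in (0 : ℝ)..a, FF x)) := by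
    unfold Conjecture
    refine forall_congr' fun a => imp_congr_right fun ha => ?_
    constructor
    · intro h
      have h1 := h.const_mul (2 * Real.pi)
      rw [g_eq] at h1
      exact h1.congr' (hNS a)
    · intro h
      have h1 := h.const_mul (1 / (2 * Real.pi))
      have e1 : 1 / (2 * Real.pi) * ∫ x in (0 : ℝ)..a, FF x = g a := by
        rw [← g_eq, ← mul_assoc, one_div_mul_cancel h2pi.ne', one_mul]
      rw [e1] at h1
      refine h1.congr' ?_
      filter_upwards [hNS a] with T hT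
      rw [← hT, ← mul_assoc, one_div_mul_cancel h2pi.ne', one_mul]
  -- from the bounds to the conjecture
  have hlow : LowerBounds l → Tendsto DG l (𝓝 1) ∧
      ∀ a : ℝ, 0 < a → Tendsto (fun T => NS T a) l (𝓝 (∫ x in (0 : ℝ)..a, FF x)) := by
    rintro ⟨C, c, a₀, hC, hc, ha₀, h⟩
    refine zeta_critF hl (C' := 2 * Real.pi * C) (c := c) (a₀ := a₀) (by positivity) hc ha₀
      (Or.inl fun a ha ε hε => ?_)
    filter_upwards [h a ha (ε / (2 * Real.pi)) (by positivity), hNS a] with T h1 h2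
    have h3 := mul_le_mul_of_nonneg_left h1 h2pi.le
    rw [h2, mul_sub, mul_sub, g_eq, mul_div_cancel₀ _ h2pi.ne'] at h3
    rw [mul_assoc (2 * Real.pi) C]
    exact h3
  have hback : Conjecture l → LowerBounds l := by
    intro h
    refine ⟨1, 1, 1, one_pos, one_pos, one_pos, fun a ha ε hε => ?_⟩
    filter_upwards [(h a (by linarith)).eventually (eventually_gt_nhds
      (show g a - ε < g a by linarith))] with T hT
    have := Real.exp_pos (-(1 * a))
    linarith
  refine ⟨⟨hback, fun h => hQ.2 (hlow h).2⟩, ⟨fun h => ⟨?_, ?_⟩, ?_⟩, ?_⟩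
  · exact hDG.2 (hlow (hback h)).1
  · refine ⟨1, 1, 1, one_pos, one_pos, one_pos, fun a ha ε hε => ?_⟩
    filter_upwards [(h a (by linarith)).eventually (eventually_lt_nhds
      (show g a < g a + ε by linarith))] with T hT
    have := Real.exp_pos (-(1 * a))
    linarith
  · rintro ⟨hd, C, c, a₀, hC, hc, ha₀, h⟩
    rw [hQ]
    refine (zeta_critF hl (C' := 2 * Real.pi * C) (c := c) (a₀ := a₀) (by positivity) hc ha₀
      (Or.inr ⟨fun ε hε => ?_, fun a ha ε hε => ?_⟩)).2
    · filter_upwards [(hDG.1 hd).eventually (eventually_lt_nhds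
        (show (1 : ℝ) < 1 + ε by linarith))] with T hT using hT.le
    · filter_upwards [h a ha (ε / (2 * Real.pi)) (by positivity), hNS a] with T h1 h2
      have h3 := mul_le_mul_of_nonneg_left h1 h2pi.le
      rw [h2, mul_add, mul_add, g_eq, mul_div_cancel₀ _ h2pi.ne'] at h3
      rw [mul_assoc (2 * Real.pi) C]
      exact h3
  · intro h
    have h1 := (hlow (hback h)).1
    have h2 := off_of_DG hl fun ε hε => by
      filter_upwards [h1.eventually (eventually_lt_nhds (show (1 : ℝ) < 1 + ε by linarith))]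
        with T hT using hT.le
    unfold AlmostAllOnLine
    rw [Metric.tendsto_nhds]
    intro ε hε
    filter_upwards [h2 (ε / 2) (by positivity), hev] with T hT hT10
    have h3 : 0 < T * Real.log T := by
      have := Real.log_pos (show (1 : ℝ) < T by linarith)
      have : 0 < T := by linarith
      positivity
    rw [Noff_eq (by linarith)] at hT
    have h4 : 0 ≤ ∑ s ∈ (ZZ 0).filter (fun s => s.re ≠ 1 / 2), mm s :=
      Finset.sum_nonneg fun s _ => mm_nonneg s
    rw [Real.dist_eq, sub_zero, abs_of_nonneg (by positivity), div_lt_iff₀ h3]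
    nlinarith

end Pool.Agent.Results.MP_f58427_nt.LowerBoundsSuffice
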