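import Pool.Agent.Q85.Rig.Fwd

/-!
# The number variance of the zeros of zeta at sparse scales determines the pair correlation

Unconditional.  Let `N (t)` be the number of zeros with ordinate in `(0, t]` and

`V (T, L) = (1 / T) ∫₀ᵀ (N (t + 2πL / log T) - N (t))² dt`

the mean square of the number of zeros in an interval of length `L` times the mean gap.  The
corresponding quantity for the sine process is `VG (L) = L + 2 ∫₀ᴸ (L - u) (1 - (sin πu / πu)²) du`
(so `VG (L) - L²` is the number variance of the Gaussian unitary ensemble).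

The pair correlation conjecture `N*(T, a) = (g (a) + o (1)) T log T` for every `a > 0` holds if and
only if almost all zeros of zeta are on the critical line (the number of the others with ordinate in
`(0, T]` is `o(T log T)`) and there are `c, κ > 0` and arbitrarily large `R` (as sparse as one likes)
such that in the block `R ≤ L ≤ (1 + c) R` the second moment has the predicted value up to an affine
function of `L` and an error `exp (-κ R)`:  `limsup_T |V (T, L) - VG (L) - A_R - B_R L| ≤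
exp (-κ R)`.  In this case the number of ordered pairs of zeros with equal ordinate in `(0, T]` is
`~ (T / 2π) log T` (so almost all zeros are simple).  The same along every filter `l` finer than
`T → ∞`.

Idea of the proof.  `V (T, L)` is up to `o (1)` the integral of the triangle function `(L - |x|)₊`
against the pair correlation measure.  The mixed second differences of these integrals with respect
to `L` are the windows of the measure whose density is a window of the pair measure; they are free of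
affine functions, band-limited away from the zero frequency, and exponentially small in the blocks,
so that the gap theorem `Q85.Rig.gap_zero` applies to them.  In the other direction, the conjecture
and the unconditional number variance of Selberg and Fujii imply that almost all zeros are on the
line.
-/

set_option autoImplicit false

open Filter Topology

namespace Pool.Agent.Results.MP_f58427_nt.NumberVariance

/-- the nontrivial zeros of `ζ` -/
def Zeros : Set ℂ := {s : ℂ | riemannZeta s = 0 ∧ 0 < s.re ∧ s.re < 1}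

/-- the multiplicity of `s` as a zero of `ζ` -/
noncomputable def mult (s : ℂ) : ℕ := analyticOrderNatAt riemannZeta s

/-- `N*(T, a)` as in the problem: the number of ordered pairs `(γ, γ')` of ordinates of nontrivial
zeros, counted with multiplicity, with `0 < γ ≤ T` and `0 < γ - γ' ≤ 2πa / log T` -/
noncomputable def Nstar (T a : ℝ) : ℕ :=
  ∑ᶠ p ∈ {p : ℂ × ℂ | p.1 ∈ Zeros ∧ p.2 ∈ Zeros ∧ 0 < p.1.im ∧ p.1.im ≤ T ∧
    0 < p.1.im - p.2.im ∧ p.1.im - p.2.im ≤ 2 * Real.pi * a / Real.log T}, mult p.1 * mult p.2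

/-- the number of ordered pairs of zeros with equal ordinate in `(0, T]`, counted with multiplicity
(`∑ m²` over the ordinates, where `m` is the multiplicity of the ordinate) -/
noncomputable def Nequal (T : ℝ) : ℕ :=
  ∑ᶠ p ∈ {p : ℂ × ℂ | p.1 ∈ Zeros ∧ p.2 ∈ Zeros ∧ 0 < p.1.im ∧ p.1.im ≤ T ∧ p.1.im = p.2.im},
    mult p.1 * mult p.2

/-- the number of zeros off the critical line with ordinate in `(0, T]`, with multiplicity -/
noncomputable def Noff (T : ℝ) : ℕ :=
  ∑ᶠ s ∈ {s : ℂ | s ∈ Zeros ∧ 0 < s.im ∧ s.im ≤ T ∧ s.re ≠ 1 / 2}, mult s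

/-- the conjectured value -/
noncomputable def g (a : ℝ) : ℝ :=
  1 / (2 * Real.pi) * ∫ u in (0 : ℝ)..a, (1 - (Real.sin (Real.pi * u) / (Real.pi * u)) ^ 2)

/-- Almost all zeros are on the critical line, along the filter `l`. -/
def AlmostAllOnLine (l : Filter ℝ) : Prop :=
  Tendsto (fun T => (Noff T : ℝ) / (T * Real.log T)) l (𝓝 0)

/-- The number of pairs of equal ordinates is `~ (T / 2π) log T`. -/
def AlmostAllDistinct (l : Filter ℝ) : Prop :=
  Tendsto (fun T => (Nequal T : ℝ) / (T * Real.log T)) l (𝓝 (1 / (2 * Real.pi)))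

/-- The asymptotic formula of Q1, along the filter `l` -/
def Conjecture (l : Filter ℝ) : Prop :=
  ∀ a : ℝ, 0 < a → Tendsto (fun T => (Nstar T a : ℝ) / (T * Real.log T)) l (𝓝 (g a))

/-- the number of nontrivial zeros with ordinate in `(0, t]`, with multiplicity -/
noncomputable def N (t : ℝ) : ℕ := ∑ᶠ s ∈ {s : ℂ | s ∈ Zeros ∧ 0 < s.im ∧ s.im ≤ t}, mult s

/-- the mean square of the number of zeros in the intervals `(t, t + 2πL / log T]`, `0 ≤ t ≤ T`,
of length `L` times the mean gap -/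
noncomputable def V (T L : ℝ) : ℝ :=
  1 / T * ∫ t in (0 : ℝ)..T, ((N (t + 2 * Real.pi * L / Real.log T) : ℝ) - N t) ^ 2

/-- the second moment of the number of points in an interval of length `L` for the sine process
(the bulk limit of the Gaussian unitary ensemble) -/
noncomputable def VG (L : ℝ) : ℝ :=
  L + 2 * ∫ u in (0 : ℝ)..L, (L - u) * (1 - (Real.sin (Real.pi * u) / (Real.pi * u)) ^ 2)

/-- `V (T, L)` agrees with `VG L` up to an affine function of `L` and up to `exp (-κ R)`, for all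
`L` in blocks `[R, (1 + c) R]` with arbitrarily large `R` -/
def VarianceAtSparseScales (l : Filter ℝ) (c κ : ℝ) : Prop :=
  ∀ R₀ : ℝ, ∃ R A B : ℝ, R₀ ≤ R ∧ ∀ L : ℝ, R ≤ L → L ≤ (1 + c) * R → ∀ ε : ℝ, 0 < ε →
    ∀ᶠ T in l, |V T L - VG L - A - B * L| ≤ Real.exp (-(κ * R)) + ε

open Pool.Agent.Y749.Rig Pool.Agent.Q85.Rig

lemma g_eq (a : ℝ) : 2 * Real.pi * g a = ∫ x in (0 : ℝ)..a, FF x := by
  have hpi := Real.pi_pos
  unfold g
  rw [← mul_assoc, mul_one_div, div_self (by positivity), one_mul]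
  rfl

/-- the ordinates are bounded away from zero -/
lemma im_lower : ∃ δ : ℝ, 0 < δ ∧ ∀ s ∈ Zeros, 0 < s.im → δ ≤ s.im := by
  classical
  rcases ((ZZ 1).filter fun s => 0 < s.im).eq_empty_or_nonempty with h | h
  · refine ⟨1, one_pos, fun s hs h0 => ?_⟩
    by_contra hcon
    push Not at hcon
    have : s ∈ (ZZ 1).filter fun s => 0 < s.im := by
      rw [Finset.mem_filter, mem_ZZ]
      exact ⟨⟨hs.1, hs.2.1, hs.2.2, h0.le, hcon.le⟩, h0⟩
    rw [h] at this
    exact absurd this (Finset.notMem_empty _)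
  · obtain ⟨s₀, hs₀, hmin⟩ := Finset.exists_min_image _ (fun s : ℂ => s.im) h
    rw [Finset.mem_filter] at hs₀
    refine ⟨min 1 s₀.im, lt_min one_pos hs₀.2, fun s hs h0 => ?_⟩
    rcases le_or_gt s.im 1 with h1 | h1
    · refine (min_le_right _ _).trans (hmin s ?_)
      rw [Finset.mem_filter, mem_ZZ]
      exact ⟨⟨hs.1, hs.2.1, hs.2.2, h0.le, h1⟩, h0⟩
    · exact (min_le_left _ _).trans h1.le

lemma Nstar_eq (a : ℝ) : ∀ᶠ T in atTop,
    2 * Real.pi * ((Nstar T a : ℝ) / (T * Real.log T)) = NS T a := by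
  classical
  have hpi := Real.pi_pos
  obtain ⟨δ, hδ, hlow⟩ := im_lower
  have h1 : ∀ᶠ T : ℝ in atTop, 2 * Real.pi * |a| / δ + 1 ≤ Real.log T :=
    Real.tendsto_log_atTop.eventually_ge_atTop _
  filter_upwards [h1, eventually_ge_atTop 10] with T hT hT10
  have hL : 0 < Real.log T := by
    have : 0 ≤ 2 * Real.pi * |a| / δ := by positivity
    linarith
  have hT0 : 0 < T := by linarith
  have hsmall : 2 * Real.pi * a / Real.log T < δ := by
    rw [div_lt_iff₀ hL]
    have h2 : 2 * Real.pi * |a| / δ < Real.log T := by linarith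
    rw [div_lt_iff₀ hδ] at h2
    have h3 : 2 * Real.pi * a ≤ 2 * Real.pi * |a| := by
      have := le_abs_self a
      nlinarith
    linarith
  have hset : {p : ℂ × ℂ | p.1 ∈ Zeros ∧ p.2 ∈ Zeros ∧ 0 < p.1.im ∧ p.1.im ≤ T ∧
      0 < p.1.im - p.2.im ∧ p.1.im - p.2.im ≤ 2 * Real.pi * a / Real.log T} =
      (((ZZ T ×ˢ ZZ T).filter fun p : ℂ × ℂ =>
        (p.1.im - p.2.im) * Real.log T / (2 * Real.pi) ∈ Set.Ioc 0 a : Finset (ℂ × ℂ)) :
          Set (ℂ × ℂ)) := by
    ext p
    rw [Finset.coe_filter]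
    simp only [Set.mem_ofPred_eq, Finset.mem_product, mem_ZZ, Set.mem_Ioc]
    have e1 : 0 < p.1.im - p.2.im ↔ 0 < (p.1.im - p.2.im) * Real.log T / (2 * Real.pi) := by
      constructor
      · intro h; positivity
      · intro h
        by_contra hcon
        push Not at hcon
        have : (p.1.im - p.2.im) * Real.log T / (2 * Real.pi) ≤ 0 :=
          div_nonpos_of_nonpos_of_nonneg (mul_nonpos_of_nonpos_of_nonneg hcon hL.le) (by positivity)
        linarith
    have e2 : p.1.im - p.2.im ≤ 2 * Real.pi * a / Real.log T ↔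
        (p.1.im - p.2.im) * Real.log T / (2 * Real.pi) ≤ a := by
      rw [le_div_iff₀ hL, div_le_iff₀ (by positivity), mul_comm a]
    constructor
    · rintro ⟨h1, h2, h3, h4, h5, h6⟩
      have h7 : 0 ≤ p.2.im := by
        by_contra hcon
        push Not at hcon
        have := hlow p.1 h1 h3
        linarith
      exact ⟨⟨⟨h1.1, h1.2.1, h1.2.2, h3.le, h4⟩, ⟨h2.1, h2.2.1, h2.2.2, h7, by linarith⟩⟩,
        e1.1 h5, e2.1 h6⟩
    · rintro ⟨⟨⟨a1, a2, a3, a4, a5⟩, ⟨b1, b2, b3, b4, b5⟩⟩, c1, c2⟩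
      have c3 := e1.2 c1
      exact ⟨⟨a1, a2, a3⟩, ⟨b1, b2, b3⟩, by linarith, a5, c3, e2.2 c2⟩
  have hN : (Nstar T a : ℝ) = RR ((Set.Ioc 0 a).indicator fun _ => 1) (ZZ T) (ZZ T)
      (Real.log T) := by
    unfold Nstar RR
    rw [hset, finsum_mem_coe_finset, ← Finset.sum_product']
    push_cast
    rw [Finset.sum_filter]
    refine Finset.sum_congr rfl fun p _ => ?_
    by_cases h : (p.1.im - p.2.im) * Real.log T / (2 * Real.pi) ∈ Set.Ioc 0 a
    · rw [if_pos h, Set.indicator_of_mem h, mul_one]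
      rfl
    · rw [if_neg h, Set.indicator_of_notMem h, mul_zero]
  unfold NS
  rw [Mp_real hT10 measurableSet_Ioc, hN]
  unfold nT
  field_simp

/-- the number of pairs with ordinate zero -/
noncomputable def K0 : ℝ := ∑ p ∈ ZZ 0 ×ˢ ZZ 0, mm p.1 * mm p.2

lemma Nequal_eq {T : ℝ} (hT : 10 ≤ T) : (Nequal T : ℝ) + K0 = DG T * nT T := by
  classical
  have hpi := Real.pi_pos
  have hn := nT_pos hT
  have hL : 0 < Real.log T := Real.log_pos (by linarith)
  have hset : {p : ℂ × ℂ | p.1 ∈ Zeros ∧ p.2 ∈ Zeros ∧ 0 < p.1.im ∧ p.1.im ≤ T ∧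
      p.1.im = p.2.im} = (((ZZ T ×ˢ ZZ T).filter fun p : ℂ × ℂ =>
        p.1.im = p.2.im ∧ 0 < p.1.im : Finset (ℂ × ℂ)) : Set (ℂ × ℂ)) := by
    ext p
    rw [Finset.coe_filter]
    simp only [Set.mem_ofPred_eq, Finset.mem_product, mem_ZZ]
    constructor
    · rintro ⟨h1, h2, h3, h4, h5⟩
      exact ⟨⟨⟨h1.1, h1.2.1, h1.2.2, h3.le, h4⟩, ⟨h2.1, h2.2.1, h2.2.2, by linarith,
        by linarith⟩⟩, h5, h3⟩
    · rintro ⟨⟨⟨a1, a2, a3, a4, a5⟩, ⟨b1, b2, b3, b4, b5⟩⟩, c1, c2⟩
      exact ⟨⟨a1, a2, a3⟩, ⟨b1, b2, b3⟩, c2, a5, c1⟩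
  have hK : K0 = ∑ p ∈ (ZZ T ×ˢ ZZ T).filter (fun p : ℂ × ℂ => p.1.im = p.2.im ∧ ¬ 0 < p.1.im),
      mm p.1 * mm p.2 := by
    unfold K0
    refine Finset.sum_congr ?_ fun _ _ => rfl
    ext p
    rw [Finset.mem_filter]
    simp only [Finset.mem_product, mem_ZZ]
    constructor
    · rintro ⟨⟨a1, a2, a3, a4, a5⟩, ⟨b1, b2, b3, b4, b5⟩⟩
      exact ⟨⟨⟨a1, a2, a3, a4, by linarith⟩, ⟨b1, b2, b3, b4, by linarith⟩⟩, by linarith,
        by linarith⟩
    · rintro ⟨⟨⟨a1, a2, a3, a4, a5⟩, ⟨b1, b2, b3, b4, b5⟩⟩, c1, c2⟩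
      exact ⟨⟨a1, a2, a3, a4, by linarith⟩, ⟨b1, b2, b3, b4, by linarith⟩⟩
  have hD : DG T * nT T = ∑ p ∈ (ZZ T ×ˢ ZZ T).filter (fun p : ℂ × ℂ => p.1.im = p.2.im),
      mm p.1 * mm p.2 := by
    unfold DG
    rw [Mp_real hT (measurableSet_singleton 0), div_mul_cancel₀ _ hn.ne']
    unfold RR
    rw [← Finset.sum_product', Finset.sum_filter]
    refine Finset.sum_congr rfl fun p _ => ?_
    by_cases h : p.1.im = p.2.im
    · rw [if_pos h, h, sub_self, zero_mul, zero_div, Set.indicator_of_mem (Set.mem_singleton _),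
        mul_one]
    · rw [if_neg h, Set.indicator_of_notMem, mul_zero]
      rw [Set.mem_singleton_iff]
      intro h0
      apply h
      have h1 : (p.1.im - p.2.im) * Real.log T = 0 := by
        have := (div_eq_zero_iff.1 h0).resolve_right (by positivity)
        exact this
      have := (mul_eq_zero.1 h1).resolve_right hL.ne'
      linarith
  have hN : (Nequal T : ℝ) = ∑ p ∈ (ZZ T ×ˢ ZZ T).filter (fun p : ℂ × ℂ =>
      p.1.im = p.2.im ∧ 0 < p.1.im), mm p.1 * mm p.2 := by
    unfold Nequal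
    rw [hset, finsum_mem_coe_finset]
    push_cast
    rfl
  rw [hN, hK, hD, ← Finset.filter_filter, ← Finset.filter_filter, Finset.sum_filter_add_sum_filter_not]

lemma Noff_eq {T : ℝ} (hT : 0 ≤ T) :
    NF T = (Noff T : ℝ) + ∑ s ∈ (ZZ 0).filter (fun s => s.re ≠ 1 / 2), mm s := by
  classical
  have hset : {s : ℂ | s ∈ Zeros ∧ 0 < s.im ∧ s.im ≤ T ∧ s.re ≠ 1 / 2} =
      (((ZZ T).filter fun s : ℂ => s.re ≠ 1 / 2 ∧ 0 < s.im : Finset ℂ) : Set ℂ) := by
    ext s
    rw [Finset.coe_filter]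
    simp only [Set.mem_ofPred_eq, mem_ZZ]
    constructor
    · rintro ⟨h1, h2, h3, h4⟩
      exact ⟨⟨h1.1, h1.2.1, h1.2.2, h2.le, h3⟩, h4, h2⟩
    · rintro ⟨⟨a1, a2, a3, a4, a5⟩, c1, c2⟩
      exact ⟨⟨a1, a2, a3⟩, c2, a5, c1⟩
  have hN : (Noff T : ℝ) = ∑ s ∈ (ZZ T).filter (fun s : ℂ => s.re ≠ 1 / 2 ∧ 0 < s.im), mm s := by
    unfold Noff
    rw [hset, finsum_mem_coe_finset]
    push_cast
    rfl
  have hK : (ZZ 0).filter (fun s => s.re ≠ 1 / 2) =
      (ZZ T).filter (fun s : ℂ => s.re ≠ 1 / 2 ∧ ¬ 0 < s.im) := by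
    ext s
    rw [Finset.mem_filter, Finset.mem_filter, mem_ZZ, mem_ZZ]
    constructor
    · rintro ⟨⟨a1, a2, a3, a4, a5⟩, c1⟩
      exact ⟨⟨a1, a2, a3, a4, by linarith⟩, c1, by linarith⟩
    · rintro ⟨⟨a1, a2, a3, a4, a5⟩, c1, c2⟩
      exact ⟨⟨a1, a2, a3, a4, by linarith⟩, c1⟩
  unfold NF
  rw [hN, hK, ← Finset.filter_filter, ← Finset.filter_filter, Finset.sum_filter_add_sum_filter_not]

lemma TlogT : Tendsto (fun T : ℝ => T * Real.log T) atTop atTop :=
  tendsto_id.atTop_mul_atTop₀ Real.tendsto_log_atTop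

lemma N_eq (t : ℝ) : N t = SG.NZ t := by
  unfold N SG.NZ
  have hset : {s : ℂ | s ∈ Zeros ∧ 0 < s.im ∧ s.im ≤ t} =
      {s : ℂ | riemannZeta s = 0 ∧ 0 < s.re ∧ s.re < 1 ∧ 0 < s.im ∧ s.im ≤ t} := by
    ext s
    constructor
    · rintro ⟨h1, h2, h3⟩
      exact ⟨h1.1, h1.2.1, h1.2.2, h2, h3⟩
    · rintro ⟨h1, h2, h3, h4, h5⟩
      exact ⟨⟨h1, h2, h3⟩, h4, h5⟩
  rw [hset]
  rfl

lemma V_eq (T L : ℝ) : V T L = V2 T L := by
  unfold V V2
  simp_rw [N_eq]
  ring

lemma VG_eq {L : ℝ} (hL : 0 ≤ L) : VG L = mo mG L := by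
  unfold mo VG
  rw [mG_integral (tri_cont L) (tri_qd L), abs_zero, sub_zero, max_eq_left hL]
  congr 1
  have hFF : ∀ x : ℝ, FF x = FF |x| := by
    intro x
    rcases abs_choice x with h | h
    · rw [h]
    · rw [h]; unfold FF; rw [mul_neg, Real.sin_neg, neg_div_neg_eq]
  have e1 : ∀ x : ℝ, max (L - |x|) 0 * FF x = (fun y => max (L - y) 0 * FF y) |x| := by
    intro x
    simp only
    rw [← hFF]
  simp_rw [e1]
  rw [integral_comp_abs (f := fun y => max (L - y) 0 * FF y)]
  congr 1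
  rw [intervalIntegral.integral_of_le hL]
  refine Eq.trans ?_ (MeasureTheory.setIntegral_eq_of_subset_of_forall_sdiff_eq_zero
    measurableSet_Ioi (s := Set.Ioc 0 L) (t := Set.Ioi 0) (fun x hx => hx.1) ?_).symm
  · refine MeasureTheory.setIntegral_congr_fun measurableSet_Ioc fun x hx => ?_
    change (L - x) * FF x = max (L - x) 0 * FF x
    rw [max_eq_left (by linarith [hx.2])]
  · intro x hx
    have h1 : L < x := by
      by_contra hcon
      push Not at hcon
      exact hx.2 ⟨hx.1, hcon⟩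
    rw [max_eq_right (by linarith), zero_mul]

/-- **The pair correlation conjecture and the second moments in sparse blocks.** -/
theorem result (l : Filter ℝ) (hl : l ≤ atTop) :
    (Conjecture l ↔ (AlmostAllOnLine l ∧ ∃ c κ : ℝ, 0 < c ∧ 0 < κ ∧
      VarianceAtSparseScales l c κ)) ∧ (Conjecture l → AlmostAllDistinct l) := by
  have hpi := Real.pi_pos
  have h2pi : 0 < 2 * Real.pi := by positivity
  have hev : ∀ᶠ T in l, (10 : ℝ) ≤ T := hl (eventually_ge_atTop 10)
  -- `N*` and the measures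
  have hNS : ∀ a : ℝ, ∀ᶠ T in l, 2 * Real.pi * ((Nstar T a : ℝ) / (T * Real.log T)) = NS T a :=
    fun a => hl (Nstar_eq a)
  have hDG : AlmostAllDistinct l ↔ Tendsto DG l (𝓝 1) := by
    have h1 : Tendsto (fun T => K0 / (T * Real.log T)) l (𝓝 0) :=
      (TlogT.const_div_atTop K0).mono_left hl
    have h2 : ∀ᶠ T in l, (Nequal T : ℝ) / (T * Real.log T) =
        1 / (2 * Real.pi) * DG T - K0 / (T * Real.log T) := by
      filter_upwards [hev] with T hT
      have h3 := Nequal_eq hT
      have h4 : (Nequal T : ℝ) = DG T * nT T - K0 := by linarith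
      have hL := Real.log_pos (show (1 : ℝ) < T by linarith)
      have hT0 : 0 < T := by linarith
      rw [h4]
      unfold nT
      field_simp
    unfold AlmostAllDistinct
    rw [tendsto_congr' h2]
    constructor
    · intro h
      have h6 := (h.add h1).const_mul (2 * Real.pi)
      have e1 : 2 * Real.pi * (1 / (2 * Real.pi) + 0) = 1 := by field_simp; ring
      rw [e1] at h6
      refine h6.congr fun T => ?_
      rw [sub_add_cancel, ← mul_assoc, mul_one_div, div_self h2pi.ne', one_mul]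
    · intro h
      have h6 := (h.const_mul (1 / (2 * Real.pi))).sub h1
      rwa [mul_one, sub_zero] at h6
  have hQ : Conjecture l ↔
      ∀ a : ℝ, 0 < a → Tendsto (fun T => NS T a) l (𝓝 (∫ x in (0 : ℝ)..a, FF x)) := by
    unfold Conjecture
    refine forall_congr' fun a => imp_congr_right fun ha => ?_
    constructor
    · intro h
      have h1 := h.const_mul (2 * Real.pi)
      rw [g_eq] at h1
      exact h1.congr' (hNS a)
    · intro h
      have h1 := h.const_mul (1 / (2 * Real.pi))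
      have e1 : 1 / (2 * Real.pi) * ∫ x in (0 : ℝ)..a, FF x = g a := by
        rw [← g_eq, ← mul_assoc, one_div_mul_cancel h2pi.ne', one_mul]
      rw [e1] at h1
      refine h1.congr' ?_
      filter_upwards [hNS a] with T hT
      rw [← hT, ← mul_assoc, one_div_mul_cancel h2pi.ne', one_mul]
  -- the conjecture implies the other statements
  have hfwd : Conjecture l → Tendsto DG l (𝓝 1) := by
    intro h
    refine (zeta_critF hl (C' := 0) (c := 1) (a₀ := 1) le_rfl one_pos one_pos
      (Or.inl fun a ha ε hε => ?_)).1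
    filter_upwards [((hQ.1 h) a (by linarith)).eventually (eventually_gt_nhds
      (show (∫ x in (0 : ℝ)..a, FF x) - ε < ∫ x in (0 : ℝ)..a, FF x by linarith))] with T hT
    rw [zero_mul]
    linarith
  refine ⟨⟨fun h => ⟨?_, ?_⟩, ?_⟩, fun h => hDG.2 (hfwd h)⟩
  · have h1 := hfwd h
    have h2 := off_of_DG hl fun ε hε => by
      filter_upwards [h1.eventually (eventually_lt_nhds (show (1 : ℝ) < 1 + ε by linarith))]
        with T hT using hT.le
    unfold AlmostAllOnLine
    rw [Metric.tendsto_nhds]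
    intro ε hε
    filter_upwards [h2 (ε / 2) (by positivity), hev] with T hT hT10
    have h3 : 0 < T * Real.log T := by
      have := Real.log_pos (show (1 : ℝ) < T by linarith)
      have : 0 < T := by linarith
      positivity
    rw [Noff_eq (by linarith)] at hT
    have h4 : 0 ≤ ∑ s ∈ (ZZ 0).filter (fun s => s.re ≠ 1 / 2), mm s :=
      Finset.sum_nonneg fun s _ => mm_nonneg s
    rw [Real.dist_eq, sub_zero, abs_of_nonneg (by positivity), div_lt_iff₀ h3]
    nlinarith
  · refine ⟨1, 1, one_pos, one_pos, fun R₀ => ⟨max R₀ 0, 0, 0, le_max_left _ _,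
      fun L h3 _ ε hε => ?_⟩⟩
    have hL : 0 ≤ L := (le_max_right _ _).trans h3
    have h4 := mo_fwd hl (hfwd h) (hQ.1 h) hL
    rw [Metric.tendsto_nhds] at h4
    filter_upwards [h4 (ε / 2) (by positivity), hl (V2_close hL
      (show 0 < ε / 2 by positivity))] with T h5 h6
    rw [V_eq, VG_eq hL]
    rw [Real.dist_eq] at h5
    have h7 : V2 T L - mo mG L - 0 - 0 * L =
        (V2 T L - mo (Mp T) L) + (mo (Mp T) L - mo mG L) := by ring
    rw [h7]
    refine (abs_add_le _ _).trans ?_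
    have := Real.exp_pos (-(1 * max R₀ 0))
    linarith
  rintro ⟨hoff, c, κ, hc, hκ, h⟩
  have hNF : ∀ η : ℝ, 0 < η → ∀ᶠ T : ℝ in l, NF T ≤ η * (T * Real.log T) := by
    intro η hη
    obtain ⟨K, hK⟩ : ∃ K : ℝ, K = ∑ s ∈ (ZZ 0).filter (fun s => s.re ≠ 1 / 2), mm s := ⟨_, rfl⟩
    filter_upwards [hoff.eventually (eventually_lt_nhds (show 0 < η / 2 by positivity)),
      hev, hl (TlogT.eventually_ge_atTop (K * (2 / η)))] with T hT hT10 hT2
    have h3 : 0 < T * Real.log T := by
      have := Real.log_pos (show (1 : ℝ) < T by linarith)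
      have : 0 < T := by linarith
      positivity
    rw [div_lt_iff₀ h3] at hT
    rw [Noff_eq (by linarith), ← hK]
    have h4 : K ≤ η / 2 * (T * Real.log T) := by
      have := mul_le_mul_of_nonneg_left hT2 (show 0 ≤ η / 2 by positivity)
      rwa [show η / 2 * (K * (2 / η)) = K by field_simp] at this
    linarith
  -- the windows
  have hwin : ∀ α β : ℝ, 0 < α → α < β →
      Tendsto (fun T => (Mp T).real (Set.Icc α β)) l (𝓝 (∫ x in α..β, FF x)) := by
    refine rigVF hl hNF (κ' := κ) (c := c) hκ hc ?_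
    rw [frequently_atTop]
    intro R₀
    obtain ⟨R, A, B, hR, h2⟩ := h (max R₀ 0)
    refine ⟨R, (le_max_left _ _).trans hR, A, B, fun L h3 h4 ε hε => ?_⟩
    have hL : 0 ≤ L := ((le_max_right _ _).trans hR).trans h3
    filter_upwards [h2 L h3 h4 (ε / 2) (by positivity), hl (V2_close hL
      (show 0 < ε / 2 by positivity))] with T h5 h6
    rw [V_eq, VG_eq hL] at h5
    have h7 : mo (Mp T) L - mo mG L - A - B * L =
        (V2 T L - mo mG L - A - B * L) - (V2 T L - mo (Mp T) L) := by ring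
    rw [h7]
    refine (abs_sub _ _).trans ?_
    linarith
  have hall : Tendsto DG l (𝓝 1) ∧
      ∀ a : ℝ, 0 < a → Tendsto (fun T => NS T a) l (𝓝 (∫ x in (0 : ℝ)..a, FF x)) := by
    refine zeta_critF hl (C' := 0) (c := 1) (a₀ := 1) le_rfl one_pos one_pos
      (Or.inl fun a ha ε hε => ?_)
    obtain ⟨d, hd⟩ : ∃ d : ℝ, d = min (ε / 4) (1 / 2) := ⟨_, rfl⟩
    have hd0 : 0 < d := by rw [hd]; exact lt_min (by positivity) (by norm_num)
    have hd1 : d ≤ ε / 4 := by rw [hd]; exact min_le_left _ _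
    have hd2 : d ≤ 1 / 2 := by rw [hd]; exact min_le_right _ _
    have h1 : (∫ x in (0 : ℝ)..a, FF x) = (∫ x in (0 : ℝ)..d, FF x) + ∫ x in d..a, FF x :=
      (intervalIntegral.integral_add_adjacent_intervals (FF_ii _ _) (FF_ii _ _)).symm
    have h2 : ∫ x in (0 : ℝ)..d, FF x ≤ d := by
      have := gF_le hd0.le
      rw [intervalIntegral.integral_same] at this
      linarith
    filter_upwards [(hwin d a hd0 (by linarith)).eventually (eventually_gt_nhds
      (show (∫ x in d..a, FF x) - ε / 4 < ∫ x in d..a, FF x by linarith))] with T hT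
    have h3 : (Mp T).real (Set.Icc d a) ≤ NS T a := by
      have := Mp_fin T
      refine MeasureTheory.measureReal_mono ?_ (MeasureTheory.measure_ne_top _ _)
      intro x hx
      exact ⟨by linarith [hx.1], hx.2⟩
    rw [zero_mul]
    linarith
  exact hQ.2 hall.2

end Pool.Agent.Results.MP_f58427_nt.NumberVariance
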